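import Pool.Agent.H371.LG3.D2
import Pool.Agent.H371.LG.N1

set_option autoImplicit false

namespace Pool.Agent.H371.LG.GO.C1x

open Pool.Agent.Q171.AS in
/-- a surjective endomorphism of the free group of rank two is an automorphism -/
theorem hopf (d : FreeGroup (Fin 2) →* FreeGroup (Fin 2)) (hd : Function.Surjective d) :
    ∃ α : MulAut (FreeGroup (Fin 2)), ∀ w, α w = d w := by
  have hgen : Pool.Agent.H18.Nielsen.Gen (d (FreeGroup.of 0), d (FreeGroup.of 1)) := by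
    intro H h0 h1
    rw [eq_top_iff]
    intro w _
    obtain ⟨w, rfl⟩ := hd w
    induction w using FreeGroup.induction_on with
    | C1 => simp
    | of i => fin_cases i <;> assumption
    | inv_of i ih => simpa using ih trivial
    | mul x y ihx ihy => rw [_root_.map_mul]; exact H.mul_mem (ihx trivial) (ihy trivial)
  have haut : ∃ α : MulAut FF, α X = d X ∧ α Y = d Y := by
    refine Pool.Agent.H18.Nielsen.nielsen _ hgen (fun p => ∃ α : MulAut FF, α X = p.1 ∧ α Y = p.2)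
      ⟨?_, ?_, ?_, ?_⟩ ⟨1, rfl, rfl⟩
    · rintro u v ⟨α, h1, h2⟩
      exact ⟨α * σA, by simpa using h2, by simpa using h1⟩
    · rintro u v ⟨α, h1, h2⟩
      exact ⟨α * εA, by simpa using h1, by simpa using h2⟩
    · rintro u v ⟨α, h1, h2⟩
      refine ⟨α * (σA * μA * σA * (MulAut.conj X)), ?_, ?_⟩
      · simp at h1 h2 ⊢
        exact h1
      · simp at h1 h2 ⊢
        rw [h1, h2]
        group
    · rintro u v c ⟨α, h1, h2⟩
      refine ⟨MulAut.conj c * α, ?_, ?_⟩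
      · simp at h1 h2 ⊢
        exact h1
      · simp at h1 h2 ⊢
        exact h2
  obtain ⟨α, hX, hY⟩ := haut
  have hdα : d = α.toMonoidHom := ext2 hX.symm hY.symm
  refine ⟨α, fun w => ?_⟩
  rw [hdα]
  rfl

end Pool.Agent.H371.LG.GO.C1x

namespace Pool.Agent.H371.LG.GO

open Pool.Agent.H371.GT

variable {m : ℕ}

theorem C1x.one_ppow (l : Zhat) : ppow (1 : F2) l = 1 := by
  have h : ∀ k : ℕ, (1 : F2) ^ k = 1 := fun k => one_pow k
  have h1 := tendsto_ppow (1 : F2) l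
  simp only [one_pow] at h1
  exact tendsto_nhds_unique h1 tendsto_const_nhds

theorem C1x.mem_of_ppow (N : OpenNormalSubgroup F2) (g : F2) (l : Zhatˣ)
    (h : ppow g (l : Zhat) ∈ N.toSubgroup) : g ∈ N.toSubgroup := by
  have h1 : ppow (ppow g (l : Zhat)) ((l⁻¹ : Zhatˣ) : Zhat) = g := by
    rw [← GT.ppow_mul, Units.mul_inv, GT.ppow_one]
  have h2 := mk_ppow N (ppow g (l : Zhat)) ((l⁻¹ : Zhatˣ) : Zhat)
  rw [h1, (QuotientGroup.eq_one_iff _).2 h, one_pow] at h2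
  exact (QuotientGroup.eq_one_iff _).1 h2

theorem C1x.exists_sep : ∃ N : OpenNormalSubgroup F2, LL ∉ N.toSubgroup := by
  obtain ⟨ρ, hX, hY, hρ⟩ := exists_finite_XY (Equiv.swap (0 : Fin 3) 1) (Equiv.swap (1 : Fin 3) 2)
  refine ⟨{ toSubgroup := ρ.ker, isOpen' := hρ, isNormal' := inferInstance }, fun h => ?_⟩
  have h1 : ρ LL = 1 := h
  unfold LL at h1
  rw [map_mul, map_mul, map_mul, map_inv, map_inv, hX, hY] at h1
  revert h1
  decide

theorem clos_inCl (q : Pi 1 (m + 2) →ₜ* F2) (hq : IsQ (Fin.last (m + 1)) q)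
    (s : MulAut (Pi 1 (m + 2))) (hs : s ∈ Clos (Stab (std 1 (m + 2))))
    (h : ∀ i, ∃ a, s (loop i) = a * loop i * a⁻¹) (ψ : MulAut F2)
    (hψ : ∀ u, q (s u) = ψ (q u)) : InCl ψ := by
  obtain ⟨N', hN'⟩ := C1x.exists_sep
  intro N
  have hopen : IsOpen (((N ⊓ N').toSubgroup.comap q.toMonoidHom : Subgroup (Pi 1 (m + 2))) :
      Set (Pi 1 (m + 2))) := by
    have h2 : IsOpen ((N ⊓ N').toSubgroup : Set F2) := (N ⊓ N').toOpenSubgroup.isOpen
    exact h2.preimage q.continuous_toFun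
  have hnorm : ((N ⊓ N').toSubgroup.comap q.toMonoidHom : Subgroup (Pi 1 (m + 2))).Normal :=
    Subgroup.Normal.comap (N ⊓ N').isNormal' _
  let M : OpenNormalSubgroup (Pi 1 (m + 2)) :=
    { toSubgroup := (N ⊓ N').toSubgroup.comap q.toMonoidHom
      isOpen' := hopen
      isNormal' := hnorm }
  obtain ⟨d, hd, hdu⟩ := hs.2 M
  have hdu1 : ∀ u, q ((d u)⁻¹ * s u) ∈ N.toSubgroup := fun u => (Subgroup.mem_inf.1 (hdu u)).1
  have hdu2 : ∀ u, q ((d u)⁻¹ * s u) ∈ N'.toSubgroup := fun u => (Subgroup.mem_inf.1 (hdu u)).2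
  obtain ⟨l, τ, hlac⟩ := hd.1.2
  have hτ : ∀ j, j ≠ Fin.last (m + 1) → τ j ≠ Fin.last (m + 1) := by
    intro j hj h1
    apply hN'
    apply C1x.mem_of_ppow N' LL l
    obtain ⟨a, ha⟩ := hlac j
    obtain ⟨c, hc⟩ := h j
    have h2 := hdu2 (loop j)
    rw [map_mul, map_inv, ha, hc, h1] at h2
    simp only [map_mul, map_inv, map_ppow, hq.2.2.1, hq.2.2.2 j hj] at h2
    have h3 : N'.toSubgroup.Normal := N'.isNormal'
    have h4 : (q a * ppow LL (l : Zhat) * (q a)⁻¹)⁻¹ ∈ N'.toSubgroup := by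
      have e : (q a * ppow LL (l : Zhat) * (q a)⁻¹)⁻¹ =
          (q a * ppow LL (l : Zhat) * (q a)⁻¹)⁻¹ * (q c * 1 * (q c)⁻¹) := by group
      rw [e]
      exact h2
    have h5 := h3.conj_mem _ (inv_mem h4) (q a)⁻¹
    have h6 : (q a)⁻¹ * ((q a * ppow LL (l : Zhat) * (q a)⁻¹)⁻¹)⁻¹ * ((q a)⁻¹)⁻¹ =
        ppow LL (l : Zhat) := by group
    rw [h6] at h5
    exact h5
  have hq1 : ∀ j, j ≠ Fin.last (m + 1) → q (d (loop j)) = 1 := by
    intro j hj
    obtain ⟨a, ha⟩ := hlac j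
    rw [ha, map_mul, map_mul, map_ppow, hq.2.2.2 _ (hτ j hj), C1x.one_ppow, mul_one, map_inv,
      mul_inv_cancel]
  obtain ⟨e, he, he0, he1⟩ := disc_dbar1 (m := m + 1) q hq d hd.2 hq1
  obtain ⟨α, hα⟩ := C1x.hopf e he
  refine ⟨α, fun w => ?_⟩
  obtain ⟨k, hk⟩ : ∃ k : FreeGroup (Fin 2) →* Pi 1 (m + 2), k = FreeGroup.lift ![xg, yg] := ⟨_, rfl⟩
  have hk0 : k (FreeGroup.of 0) = xg := by
    rw [hk, FreeGroup.lift_apply_of]
    rfl
  have hk1 : k (FreeGroup.of 1) = yg := by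
    rw [hk, FreeGroup.lift_apply_of]
    rfl
  have e1 : q.toMonoidHom.comp k = eta (FreeGroup (Fin 2)) := by
    apply FreeGroup.ext_hom
    intro i
    fin_cases i
    · show q (k (FreeGroup.of 0)) = X
      rw [hk0, hq.1]
    · show q (k (FreeGroup.of 1)) = Y
      rw [hk1, hq.2.1]
  have e2 : (q.toMonoidHom.comp d.toMonoidHom).comp k = (eta (FreeGroup (Fin 2))).comp e := by
    apply FreeGroup.ext_hom
    intro i
    fin_cases i
    · show q (d (k (FreeGroup.of 0))) = eta (FreeGroup (Fin 2)) (e (FreeGroup.of 0))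
      rw [hk0, he0]
    · show q (d (k (FreeGroup.of 1))) = eta (FreeGroup (Fin 2)) (e (FreeGroup.of 1))
      rw [hk1, he1]
  have e1' : q (k w) = eta (FreeGroup (Fin 2)) w := DFunLike.congr_fun e1 w
  have e2' : q (d (k w)) = eta (FreeGroup (Fin 2)) (e w) := DFunLike.congr_fun e2 w
  rw [hα w, ← e2', ← e1', ← hψ, ← map_inv, ← map_mul]
  exact hdu1 (k w)

end Pool.Agent.H371.LG.GO
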