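import Pool.Agent.H371.LG3.P1
import Pool.Agent.H371.LG.D1

set_option autoImplicit false

namespace Pool.Agent.H371.LG.GO

open Pool.Agent.H371.GT

variable {m : ℕ}

namespace D2x

/-- the generators of the discrete group -/
abbrev sx {n : ℕ} : Srf 1 n := PresentedGroup.of (Sum.inl (Sum.inl 0))

/-- the generators of the discrete group -/
abbrev sy {n : ℕ} : Srf 1 n := PresentedGroup.of (Sum.inl (Sum.inr 0))

/-- the generators of the discrete group -/
abbrev sg {n : ℕ} (j : Fin n) : Srf 1 n := PresentedGroup.of (Sum.inr j)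

theorem relator_eq (n : ℕ) : relator 1 n =
    (FreeGroup.of (Sum.inl (Sum.inl 0)) : FreeGroup (Gen 1 n)) *
      FreeGroup.of (Sum.inl (Sum.inr 0)) * (FreeGroup.of (Sum.inl (Sum.inl 0)))⁻¹ *
      (FreeGroup.of (Sum.inl (Sum.inr 0)))⁻¹ *
    (List.ofFn fun j : Fin n => (FreeGroup.of (Sum.inr j) : FreeGroup (Gen 1 n))).prod := by
  unfold relator
  simp

theorem sg_prod (n : ℕ) : (sx : Srf 1 n) * sy * sx⁻¹ * sy⁻¹ *
    (List.ofFn fun j : Fin n => sg j).prod = 1 := by
  have h : (PresentedGroup.mk ({relator 1 n} : Set (FreeGroup (Gen 1 n)))) (relator 1 n) = 1 :=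
    PresentedGroup.one_of_mem rfl
  have h2 := congrArg (PresentedGroup.mk ({relator 1 n} : Set (FreeGroup (Gen 1 n))))
    (relator_eq n)
  rw [h, map_mul, map_mul, map_mul, map_mul, map_inv, map_inv, map_list_prod, List.map_ofFn] at h2
  exact h2.symm

theorem sg_last (n : ℕ) : (sg (Fin.last n) : Srf 1 (n + 1)) =
    ((sx : Srf 1 (n + 1)) * sy * sx⁻¹ * sy⁻¹ *
      (List.ofFn fun j : Fin n => (sg j.castSucc : Srf 1 (n + 1))).prod)⁻¹ := by
  have h := sg_prod (n + 1)
  rw [List.ofFn_succ', List.concat_eq_append, List.prod_append, List.prod_singleton,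
    ← mul_assoc] at h
  exact eq_inv_of_mul_eq_one_right h

/-- two homomorphisms which agree on all generators but the last are equal -/
theorem srf_ext {n : ℕ} {G : Type} [Group G] {f g : Srf 1 (n + 1) →* G}
    (hx : f sx = g sx) (hy : f sy = g sy)
    (h0 : ∀ j : Fin n, f (sg j.castSucc) = g (sg j.castSucc)) : f = g := by
  have h3 : f (sg (Fin.last n)) = g (sg (Fin.last n)) := by
    rw [sg_last]
    simp only [map_inv, map_mul, map_list_prod, List.map_ofFn]
    rw [hx, hy]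
    congr 3
    refine List.ofFn_inj.2 ?_
    funext j
    exact h0 j
  apply PresentedGroup.ext
  intro x
  rcases x with (i | i) | j
  · rw [Subsingleton.elim i 0]
    exact hx
  · rw [Subsingleton.elim i 0]
    exact hy
  · refine Fin.lastCases ?_ (fun i => ?_) j
    · exact h3
    · exact h0 i

/-- the commutator -/
abbrev cm : FreeGroup (Fin 2) :=
  FreeGroup.of 0 * FreeGroup.of 1 * (FreeGroup.of 0)⁻¹ * (FreeGroup.of 1)⁻¹

/-- values on the loops of the projection of the discrete groups -/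
def vl (j : Fin (m + 1)) : FreeGroup (Fin 2) := if j = Fin.last m then cm⁻¹ else 1

theorem vl_last : (vl (Fin.last m)) = cm⁻¹ := by
  unfold vl
  rw [if_pos rfl]

theorem vl_mid (j : Fin (m + 1)) (hj : j ≠ Fin.last m) : vl j = 1 := by
  unfold vl
  rw [if_neg hj]

theorem vl_prod : (List.ofFn fun j : Fin (m + 1) => vl j).prod = cm⁻¹ := by
  rw [List.ofFn_succ', List.concat_eq_append, List.prod_append, List.prod_singleton]
  have h1 : (List.ofFn fun i : Fin m => vl (i.castSucc : Fin (m + 1))).prod = 1 := by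
    apply List.prod_eq_one
    intro x hx
    obtain ⟨i, rfl⟩ := (List.mem_ofFn' _ _).1 hx
    exact vl_mid _ (Fin.castSucc_ne_last i)
  rw [h1, vl_last, one_mul]

/-- values on the generators of the projection of the discrete groups -/
def val : Gen 1 (m + 1) → FreeGroup (Fin 2)
  | Sum.inl (Sum.inl _) => FreeGroup.of 0
  | Sum.inl (Sum.inr _) => FreeGroup.of 1
  | Sum.inr j => vl j

theorem val_rel : ∀ r ∈ ({relator 1 (m + 1)} : Set (FreeGroup (Gen 1 (m + 1)))),
    FreeGroup.lift val r = 1 := by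
  intro r hr
  rw [Set.mem_singleton_iff] at hr
  rw [hr, relator_eq, map_mul, map_mul, map_mul, map_mul, map_inv, map_inv, map_list_prod,
    List.map_ofFn]
  have h : ((FreeGroup.lift (val (m := m))) ∘ fun j : Fin (m + 1) =>
      (FreeGroup.of (Sum.inr j) : FreeGroup (Gen 1 (m + 1)))) = fun j => vl j := by
    funext j
    change FreeGroup.lift (val (m := m)) (FreeGroup.of (Sum.inr j)) = vl j
    rw [FreeGroup.lift_apply_of]
    rfl
  rw [h, vl_prod, FreeGroup.lift_apply_of, FreeGroup.lift_apply_of]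
  exact mul_inv_cancel _

/-- the projection of the discrete groups -/
def p0 : Srf 1 (m + 1) →* FreeGroup (Fin 2) := PresentedGroup.toGroup val_rel

theorem p0_sg (j : Fin (m + 1)) : p0 (sg j) = vl j := PresentedGroup.toGroup.of val_rel

theorem p0_sx : p0 (sx : Srf 1 (m + 1)) = FreeGroup.of 0 := PresentedGroup.toGroup.of val_rel

theorem p0_sy : p0 (sy : Srf 1 (m + 1)) = FreeGroup.of 1 := PresentedGroup.toGroup.of val_rel

/-- the section -/
def jj : FreeGroup (Fin 2) →* Srf 1 (m + 1) := FreeGroup.lift ![sx, sy]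

theorem jj_0 : (jj (FreeGroup.of 0) : Srf 1 (m + 1)) = sx := by
  unfold jj
  rw [FreeGroup.lift_apply_of]
  rfl

theorem jj_1 : (jj (FreeGroup.of 1) : Srf 1 (m + 1)) = sy := by
  unfold jj
  rw [FreeGroup.lift_apply_of]
  rfl

theorem p0_jj (u : FreeGroup (Fin 2)) : p0 (jj u : Srf 1 (m + 1)) = u := by
  have h : (p0 (m := m)).comp jj = MonoidHom.id _ := by
    apply FreeGroup.ext_hom
    intro i
    fin_cases i
    · change p0 (jj (FreeGroup.of 0) : Srf 1 (m + 1)) = FreeGroup.of 0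
      rw [jj_0, p0_sx]
    · change p0 (jj (FreeGroup.of 1) : Srf 1 (m + 1)) = FreeGroup.of 1
      rw [jj_1, p0_sy]
  exact DFunLike.congr_fun h u

end D2x

open D2x

theorem disc_dbar1 (q : Pi 1 (m + 1) →ₜ* F2) (hq : IsQ (Fin.last m) q) (d : MulAut (Pi 1 (m + 1)))
    (hd : (std 1 (m + 1)).map d.toMonoidHom = std 1 (m + 1))
    (h2 : ∀ j, j ≠ Fin.last m → q (d (loop j)) = 1) :
    ∃ e : FreeGroup (Fin 2) →* FreeGroup (Fin 2), Function.Surjective e ∧
      eta (FreeGroup (Fin 2)) (e (FreeGroup.of 0)) = q (d xg) ∧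
      eta (FreeGroup (Fin 2)) (e (FreeGroup.of 1)) = q (d yg) := by
  obtain ⟨hp0, hp1, -, hp2⟩ := hq
  -- the projection of the discrete group
  have hA : ∀ s : Srf 1 (m + 1), q (eta (Srf 1 (m + 1)) s) = eta (FreeGroup (Fin 2)) (p0 s) := by
    have h : q.toMonoidHom.comp (eta (Srf 1 (m + 1))) = (eta (FreeGroup (Fin 2))).comp p0 := by
      apply srf_ext
      · change q xg = eta (FreeGroup (Fin 2)) (p0 (sx : Srf 1 (m + 1)))
        rw [p0_sx, hp0]
        rfl
      · change q yg = eta (FreeGroup (Fin 2)) (p0 (sy : Srf 1 (m + 1)))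
        rw [p0_sy, hp1]
        rfl
      · intro j
        change q (loop j.castSucc) = eta (FreeGroup (Fin 2)) (p0 (sg j.castSucc))
        rw [p0_sg, hp2 _ (Fin.castSucc_ne_last j), vl_mid _ (Fin.castSucc_ne_last j), map_one]
    exact fun s => DFunLike.congr_fun h s
  -- images of the discrete group
  have hB : ∀ s : Srf 1 (m + 1), ∃ s' : Srf 1 (m + 1),
      eta (Srf 1 (m + 1)) s' = d (eta (Srf 1 (m + 1)) s) := by
    intro s
    have h : d (eta (Srf 1 (m + 1)) s) ∈ (std 1 (m + 1)).map d.toMonoidHom :=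
      ⟨eta (Srf 1 (m + 1)) s, ⟨s, rfl⟩, rfl⟩
    rw [hd] at h
    exact h
  have hB' : ∀ s : Srf 1 (m + 1), ∃ s' : Srf 1 (m + 1),
      d (eta (Srf 1 (m + 1)) s') = eta (Srf 1 (m + 1)) s := by
    intro s
    have h : eta (Srf 1 (m + 1)) s ∈ std 1 (m + 1) := ⟨s, rfl⟩
    rw [← hd] at h
    obtain ⟨_, ⟨s', rfl⟩, h1⟩ := h
    exact ⟨s', h1⟩
  obtain ⟨s0, hs0⟩ := hB sx
  obtain ⟨s1, hs1⟩ := hB sy
  have hc0 : eta (FreeGroup (Fin 2)) (p0 s0) = q (d xg) := by
    rw [← hA, hs0]
    rfl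
  have hc1 : eta (FreeGroup (Fin 2)) (p0 s1) = q (d yg) := by
    rw [← hA, hs1]
    rfl
  let e : FreeGroup (Fin 2) →* FreeGroup (Fin 2) := FreeGroup.lift ![p0 s0, p0 s1]
  have he0 : e (FreeGroup.of 0) = p0 s0 := by
    change FreeGroup.lift ![p0 s0, p0 s1] (FreeGroup.of 0) = p0 s0
    rw [FreeGroup.lift_apply_of]
    rfl
  have he1 : e (FreeGroup.of 1) = p0 s1 := by
    change FreeGroup.lift ![p0 s0, p0 s1] (FreeGroup.of 1) = p0 s1
    rw [FreeGroup.lift_apply_of]
    rfl
  have hC : ∀ s : Srf 1 (m + 1), q (d (eta (Srf 1 (m + 1)) s)) =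
      eta (FreeGroup (Fin 2)) (e (p0 s)) := by
    have h : q.toMonoidHom.comp (d.toMonoidHom.comp (eta (Srf 1 (m + 1)))) =
        (eta (FreeGroup (Fin 2))).comp (e.comp p0) := by
      apply srf_ext
      · change q (d xg) = eta (FreeGroup (Fin 2)) (e (p0 (sx : Srf 1 (m + 1))))
        rw [p0_sx, he0, hc0]
      · change q (d yg) = eta (FreeGroup (Fin 2)) (e (p0 (sy : Srf 1 (m + 1))))
        rw [p0_sy, he1, hc1]
      · intro j
        change q (d (loop j.castSucc)) = eta (FreeGroup (Fin 2)) (e (p0 (sg j.castSucc)))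
        rw [p0_sg, h2 _ (Fin.castSucc_ne_last j), vl_mid _ (Fin.castSucc_ne_last j), map_one,
          map_one]
    exact fun s => DFunLike.congr_fun h s
  refine ⟨e, fun u => ?_, by rw [he0, hc0], by rw [he1, hc1]⟩
  obtain ⟨s, hs⟩ := hB' (jj u)
  refine ⟨p0 s, ?_⟩
  apply eta_inj
  rw [← hC s, hs, hA, p0_jj]

end Pool.Agent.H371.LG.GO
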