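import Pool.Agent.H371.LG.Defs
import Pool.Agent.H371.GT.G1

set_option autoImplicit false

namespace Pool.Agent.H371.LG.GO

open Pool.Agent.H371.GT

variable {m : ℕ}

/-- the generator `x_0` of the profinite group of genus one -/
def xg {n : ℕ} : Pi 1 n := eta (Srf 1 n) (PresentedGroup.of (Sum.inl (Sum.inl 0)))

/-- the generator `y_0` of the profinite group of genus one -/
def yg {n : ℕ} : Pi 1 n := eta (Srf 1 n) (PresentedGroup.of (Sum.inl (Sum.inr 0)))

/-- the inverse of `X Y X⁻¹ Y⁻¹` -/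
def LL : F2 := Y * X * Y⁻¹ * X⁻¹

/-- the map to the free profinite group on `X, Y` which forgets all loops except number `i` -/
def IsQ {n : ℕ} (i : Fin n) (q : Pi 1 n →ₜ* F2) : Prop :=
  q xg = X ∧ q yg = Y ∧ q (loop i) = LL ∧ ∀ j, j ≠ i → q (loop j) = 1

/-- `ψ` is the automorphism `X ↦ c X c⁻¹`, `Y ↦ Y c⁻¹`, `c = b (LL, X)`, where `σ Y = b Y b⁻¹` and
`b (1, Y) = 1` -/
def IsPsi (σ : MulAut F2) (b : F2) (ψ : MulAut F2) : Prop :=
  Continuous ψ ∧ σ Y = b * Y * b⁻¹ ∧ ev 1 Y b = 1 ∧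
    ψ X = ev LL X b * X * (ev LL X b)⁻¹ ∧ ψ Y = Y * (ev LL X b)⁻¹

/-- reduction modulo `3` of the images of the loops in the abelianization, type `(1, m + 3)` -/
def IsKap1 {m : ℕ} (κ : Pi 1 (m + 3) →* Multiplicative (Fin (m + 2) → ZMod 3)) : Prop :=
  IsOpen (κ.ker : Set (Pi 1 (m + 3))) ∧
    (∀ i : Fin (m + 2), κ (loop i.castSucc) = Multiplicative.ofAdd (Pi.single i 1)) ∧
    κ (loop (Fin.last (m + 2))) = Multiplicative.ofAdd fun _ => -1

/-- `ψ` is in the closure of the automorphisms of the discrete free group -/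
def InCl (ψ : MulAut F2) : Prop :=
  ∀ N : OpenNormalSubgroup F2, ∃ e : MulAut (FreeGroup (Fin 2)),
    ∀ w, (eta (FreeGroup (Fin 2)) (e w))⁻¹ * ψ (eta (FreeGroup (Fin 2)) w) ∈ N.toSubgroup

end Pool.Agent.H371.LG.GO
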