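import Pool.Agent.H371.LG3.Main
import Pool.Agent.H371.LG.Grp

/-!
If no positive power of `φ` normalizes `T⁺(π_0)` then there are infinitely many groups `T⁺`.
-/

set_option autoImplicit false

namespace Pool.Agent.H371.LG.GO

open Pool.Agent.H371.GT

theorem pow_mem {g n : ℕ} {φ : MulAut (Pi g n)} (h : φ ∈ AutLac g n) (k : ℕ) :
    φ ^ k ∈ AutLac g n := (autLac g n).pow_mem h k

theorem inf_many {g n : ℕ} {φ : MulAut (Pi g n)} (hφ : φ ∈ AutLac g n)
    (h : ∀ k : ℕ, 0 < k →
      ∃ ψ ∈ TPlus (std g n), φ ^ k * ψ * (φ ^ k)⁻¹ ∉ TPlus (std g n)) :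
    ∃ D : ℕ → Subgroup (Pi g n), D 0 = std g n ∧ (∀ i, IsDisc (D i)) ∧
      Function.Injective fun i => TPlus (D i) := by
  refine ⟨fun i => (std g n).map (φ ^ i : MulAut (Pi g n)).toMonoidHom, ?_,
    fun i => ⟨_, pow_mem hφ i, rfl⟩, ?_⟩
  · show (std g n).map (φ ^ 0 : MulAut (Pi g n)).toMonoidHom = _
    rw [pow_zero]
    exact Subgroup.map_id _
  · have key : ∀ i k : ℕ, 0 < k → TPlus ((std g n).map (φ ^ i : MulAut (Pi g n)).toMonoidHom) ≠
        TPlus ((std g n).map (φ ^ (i + k) : MulAut (Pi g n)).toMonoidHom) := by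
      intro i k hk he
      obtain ⟨t, ht, hn⟩ := h k hk
      have h1 := tplus_conj (pow_mem hφ (i + k)) ht
      rw [← he] at h1
      have h2 := tplus_conj (autLac_inv (pow_mem hφ i)) h1
      have h3 : ((std g n).map (φ ^ i : MulAut (Pi g n)).toMonoidHom).map
          ((φ ^ i)⁻¹ : MulAut (Pi g n)).toMonoidHom = std g n := by
        rw [Subgroup.map_map]
        have : ((φ ^ i)⁻¹ : MulAut (Pi g n)).toMonoidHom.comp
            (φ ^ i : MulAut (Pi g n)).toMonoidHom = MonoidHom.id _ := by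
          ext u
          exact MulAut.inv_apply_self _ (φ ^ i) u
        rw [this, Subgroup.map_id]
      rw [h3] at h2
      apply hn
      have h4 : (φ ^ i)⁻¹ * (φ ^ (i + k) * t * (φ ^ (i + k))⁻¹) * ((φ ^ i)⁻¹)⁻¹ =
          φ ^ k * t * (φ ^ k)⁻¹ := by
        rw [pow_add]
        group
      rw [h4] at h2
      exact h2
    intro i j hij
    by_contra hne
    rcases lt_or_gt_of_ne hne with hlt | hlt
    · apply key i (j - i) (by omega)
      rw [show i + (j - i) = j by omega]
      exact hij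
    · apply key j (i - j) (by omega)
      rw [show j + (i - j) = i by omega]
      exact hij.symm

end Pool.Agent.H371.LG.GO
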