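import Pool.Agent.H371.LG3.P1

set_option autoImplicit false

namespace Pool.Agent.H371.LG.GO

open Pool.Agent.H371.GT

variable {m : ℕ}

namespace P3x

theorem loop_mem {n : ℕ} (j : Fin n) : (loop j : Pi 1 n) ∈ std 1 n := ⟨_, rfl⟩

theorem xg_mem {n : ℕ} : (xg : Pi 1 n) ∈ std 1 n := ⟨_, rfl⟩

theorem yg_mem {n : ℕ} : (yg : Pi 1 n) ∈ std 1 n := ⟨_, rfl⟩

theorem eta_mem {n : ℕ} (v : Pi 1 n →* Pi 1 n) (hx : v xg ∈ std 1 n) (hy : v yg ∈ std 1 n)
    (h : ∀ j : Fin n, v (loop j) ∈ std 1 n) (g : Srf 1 n) : v (eta (Srf 1 n) g) ∈ std 1 n := by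
  have h1 : Subgroup.closure (Set.range (PresentedGroup.of (rels := {relator 1 n}))) ≤
      (std 1 n).comap (v.comp (eta (Srf 1 n))) := by
    rw [Subgroup.closure_le]
    rintro _ ⟨i, rfl⟩
    rcases i with (i | i) | j
    · obtain rfl : i = 0 := Subsingleton.elim _ _
      exact hx
    · obtain rfl : i = 0 := Subsingleton.elim _ _
      exact hy
    · exact h j
  rw [PresentedGroup.closure_range_of] at h1
  exact h1 (Subgroup.mem_top g)

theorem map_mem {n : ℕ} (v : Pi 1 n →* Pi 1 n) (hx : v xg ∈ std 1 n) (hy : v yg ∈ std 1 n)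
    (h : ∀ j : Fin n, v (loop j) ∈ std 1 n) (x : Pi 1 n) (hxx : x ∈ std 1 n) :
    v x ∈ std 1 n := by
  obtain ⟨g, rfl⟩ := hxx
  exact eta_mem v hx hy h g

/-- the product of a list of length `m + 2` with its last two elements split off -/
theorem prod_two {G : Type} [Group G] {m : ℕ} (f : Fin (m + 2) → G) :
    (List.ofFn f).prod = (List.ofFn fun i : Fin m => f i.castSucc.castSucc).prod *
      (f (Fin.last m).castSucc * f (Fin.last (m + 1))) := by
  rw [List.ofFn_succ', List.concat_eq_append, List.prod_append, List.prod_singleton,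
    List.ofFn_succ', List.concat_eq_append, List.prod_append, List.prod_singleton, mul_assoc]

theorem prod_change {G : Type} [Group G] {m : ℕ} (f g : Fin (m + 2) → G)
    (h : ∀ j, j ≠ Fin.last (m + 1) → j ≠ (Fin.last m).castSucc → g j = f j)
    (h2 : g (Fin.last m).castSucc * g (Fin.last (m + 1)) =
      f (Fin.last m).castSucc * f (Fin.last (m + 1))) :
    (List.ofFn g).prod = (List.ofFn f).prod := by
  rw [prod_two f, prod_two g, h2]
  congr 3
  funext i
  refine h _ ?_ ?_
  · exact (Fin.castSucc_lt_last _).ne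
  · intro h3
    exact (Fin.castSucc_lt_last i).ne (Fin.castSucc_injective _ h3)

theorem ne_last : (Fin.last m).castSucc ≠ Fin.last (m + 1) := (Fin.castSucc_lt_last _).ne

/-- existence of the endomorphism with given images of the last two loops -/
theorem exists_end (a b : Pi 1 (m + 2))
    (hab : a * b = loop (Fin.last m).castSucc * loop (Fin.last (m + 1))) :
    ∃ p : Pi 1 (m + 2) →ₜ* Pi 1 (m + 2), p xg = xg ∧ p yg = yg ∧
      p (loop (Fin.last m).castSucc) = a ∧ p (loop (Fin.last (m + 1))) = b ∧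
      ∀ j, j ≠ Fin.last (m + 1) → j ≠ (Fin.last m).castSucc → p (loop j) = loop j := by
  classical
  let f : Fin (m + 2) → Pi 1 (m + 2) := fun j =>
    if j = Fin.last (m + 1) then b else if j = (Fin.last m).castSucc then a else loop j
  have hb : f (Fin.last (m + 1)) = b := if_pos rfl
  have ha : f (Fin.last m).castSucc = a := by
    show (if _ then _ else _) = _
    rw [if_neg ne_last, if_pos rfl]
  have hf : ∀ j, j ≠ Fin.last (m + 1) → j ≠ (Fin.last m).castSucc → f j = loop j := by
    intro j h1 h2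
    show (if _ then _ else _) = _
    rw [if_neg h1, if_neg h2]
  have hprod : (List.ofFn f).prod =
      (List.ofFn fun j : Fin (m + 2) => (loop j : Pi 1 (m + 2))).prod := by
    refine prod_change _ _ hf ?_
    rw [ha, hb, hab]
  obtain ⟨p, hx, hy, hp⟩ := pi1_lift (n := m + 2) (Q := Pi 1 (m + 2)) xg yg f (by
    rw [hprod]
    exact pi1_rel (m + 2))
  refine ⟨p, hx, hy, ?_, ?_, ?_⟩
  · rw [hp, ha]
  · rw [hp, hb]
  · intro j h1 h2
    rw [hp, hf j h1 h2]

end P3x

open P3x in
theorem exists_half : ∃ v : MulAut (Pi 1 (m + 2)), Continuous v ∧ v xg = xg ∧ v yg = yg ∧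
    v (loop (Fin.last (m + 1))) = loop (Fin.last m).castSucc ∧
    v (loop (Fin.last m).castSucc) = loop (Fin.last m).castSucc * loop (Fin.last (m + 1)) *
      (loop (Fin.last m).castSucc)⁻¹ ∧
    (∀ j, j ≠ Fin.last (m + 1) → j ≠ (Fin.last m).castSucc → v (loop j) = loop j) ∧
    (std 1 (m + 2)).map v.toMonoidHom = std 1 (m + 2) := by
  obtain ⟨p, hpx, hpy, hpa, hpb, hp⟩ := exists_end (m := m)
    (loop (Fin.last m).castSucc * loop (Fin.last (m + 1)) * (loop (Fin.last m).castSucc)⁻¹)
    (loop (Fin.last m).castSucc) (inv_mul_cancel_right _ _)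
  obtain ⟨q, hqx, hqy, hqa, hqb, hq⟩ := exists_end (m := m)
    (loop (Fin.last (m + 1)))
    ((loop (Fin.last (m + 1)))⁻¹ * loop (Fin.last m).castSucc * loop (Fin.last (m + 1)))
    (by group)
  have hpq : p.comp q = ContinuousMonoidHom.id (Pi 1 (m + 2)) := by
    refine pi1_ext _ _ ?_ ?_ fun j => ?_
    · show p (q xg) = xg
      rw [hqx, hpx]
    · show p (q yg) = yg
      rw [hqy, hpy]
    · show p (q (loop j)) = loop j
      by_cases h1 : j = Fin.last (m + 1)
      · rw [h1, hqb, map_mul, map_mul, map_inv, hpa, hpb]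
        group
      · by_cases h2 : j = (Fin.last m).castSucc
        · rw [h2, hqa, hpb]
        · rw [hq j h1 h2, hp j h1 h2]
  have hqp : q.comp p = ContinuousMonoidHom.id (Pi 1 (m + 2)) := by
    refine pi1_ext _ _ ?_ ?_ fun j => ?_
    · show q (p xg) = xg
      rw [hpx, hqx]
    · show q (p yg) = yg
      rw [hpy, hqy]
    · show q (p (loop j)) = loop j
      by_cases h1 : j = Fin.last (m + 1)
      · rw [h1, hpb, hqa]
      · by_cases h2 : j = (Fin.last m).castSucc
        · rw [h2, hpa, map_mul, map_mul, map_inv, hqa, hqb]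
          group
        · rw [hp j h1 h2, hq j h1 h2]
  have hl : ∀ u, q (p u) = u := fun u => DFunLike.congr_fun hqp u
  have hr : ∀ u, p (q u) = u := fun u => DFunLike.congr_fun hpq u
  obtain ⟨v, hv⟩ : ∃ v : MulAut (Pi 1 (m + 2)), ∀ u, v u = p u :=
    ⟨{ toFun := p, invFun := q, left_inv := hl, right_inv := hr, map_mul' := map_mul p },
      fun _ => rfl⟩
  have hpm : ∀ x ∈ std 1 (m + 2), p x ∈ std 1 (m + 2) := by
    refine map_mem p.toMonoidHom ?_ ?_ fun j => ?_
    · show p xg ∈ std 1 (m + 2)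
      rw [hpx]
      exact xg_mem
    · show p yg ∈ std 1 (m + 2)
      rw [hpy]
      exact yg_mem
    · show p (loop j) ∈ std 1 (m + 2)
      by_cases h1 : j = Fin.last (m + 1)
      · rw [h1, hpb]
        exact loop_mem _
      · by_cases h2 : j = (Fin.last m).castSucc
        · rw [h2, hpa]
          exact mul_mem (mul_mem (loop_mem _) (loop_mem _)) (inv_mem (loop_mem _))
        · rw [hp j h1 h2]
          exact loop_mem _
  have hqm : ∀ x ∈ std 1 (m + 2), q x ∈ std 1 (m + 2) := by
    refine map_mem q.toMonoidHom ?_ ?_ fun j => ?_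
    · show q xg ∈ std 1 (m + 2)
      rw [hqx]
      exact xg_mem
    · show q yg ∈ std 1 (m + 2)
      rw [hqy]
      exact yg_mem
    · show q (loop j) ∈ std 1 (m + 2)
      by_cases h1 : j = Fin.last (m + 1)
      · rw [h1, hqb]
        exact mul_mem (mul_mem (inv_mem (loop_mem _)) (loop_mem _)) (loop_mem _)
      · by_cases h2 : j = (Fin.last m).castSucc
        · rw [h2, hqa]
          exact loop_mem _
        · rw [hq j h1 h2]
          exact loop_mem _
  refine ⟨v, ?_, (hv _).trans hpx, (hv _).trans hpy, (hv _).trans hpb, (hv _).trans hpa,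
    fun j h1 h2 => (hv _).trans (hp j h1 h2), ?_⟩
  · have h1 : (v : Pi 1 (m + 2) → Pi 1 (m + 2)) = p := funext hv
    rw [h1]
    exact p.continuous_toFun
  · refine le_antisymm ?_ ?_
    · rintro _ ⟨x, hx, rfl⟩
      show v x ∈ std 1 (m + 2)
      rw [hv]
      exact hpm x hx
    · intro x hx
      refine ⟨q x, hqm x hx, ?_⟩
      show v (q x) = x
      rw [hv, hr]

end Pool.Agent.H371.LG.GO
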