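import Pool.Agent.H371.LG3.Defs
import Pool.Agent.H371.LG.E3

set_option autoImplicit false

namespace Pool.Agent.H371.LG.GO

open Pool.Agent.H371.GT

variable {m : ℕ}

namespace S3x

/-- the set of the elements which commute with `X` modulo `N` and are not in `⟨X⟩ ker ρ` -/
def KK {H : Type} [Group H] (ρ : F2 →* H) (N : OpenNormalSubgroup F2) : Set F2 :=
  {t | t * X * t⁻¹ * X⁻¹ ∈ N.toSubgroup ∧ ∀ n : ℤ, ρ (t * X ^ n) ≠ 1}

theorem closed_KK {H : Type} [Group H] (ρ : F2 →* H) (hρ : IsOpen (ρ.ker : Set F2))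
    (N : OpenNormalSubgroup F2) : IsClosed (KK ρ N) := by
  have h1 : IsClosed {t : F2 | t * X * t⁻¹ * X⁻¹ ∈ N.toSubgroup} := by
    have h2 : IsClosed (N.toSubgroup : Set F2) := Subgroup.isClosed_of_isOpen _ N.isOpen'
    exact h2.preimage (by fun_prop : Continuous fun t : F2 => t * X * t⁻¹ * X⁻¹)
  have h3 : ∀ n : ℤ, IsClosed {t : F2 | ρ (t * X ^ n) ≠ 1} := by
    intro n
    have h4 : IsOpen {t : F2 | ρ (t * X ^ n) = 1} :=
      hρ.preimage (by fun_prop : Continuous fun t : F2 => t * X ^ n)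
    exact h4.isClosed_compl
  have h5 : KK ρ N = {t : F2 | t * X * t⁻¹ * X⁻¹ ∈ N.toSubgroup} ∩ ⋂ n : ℤ, {t : F2 | ρ (t * X ^ n) ≠ 1} := by
    ext t
    simp only [KK, Set.mem_ofPred_eq, Set.mem_inter_iff, Set.mem_iInter]
  rw [h5]
  exact h1.inter (isClosed_iInter h3)

end S3x

theorem exists_centr (M : Subgroup (FreeGroup (Fin 2))) [M.Normal] [M.FiniteIndex] :
    ∃ M1 : Subgroup (FreeGroup (Fin 2)), M1.Normal ∧ M1.FiniteIndex ∧ ∀ l : FreeGroup (Fin 2),
      l * FreeGroup.of 0 * l⁻¹ * (FreeGroup.of 0)⁻¹ ∈ M1 → ∃ n : ℤ, l * FreeGroup.of 0 ^ n ∈ M := by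
  by_contra hcon
  push Not at hcon
  have : Finite (FreeGroup (Fin 2) ⧸ M) := Subgroup.finite_quotient_of_finiteIndex
  obtain ⟨ρ, hρ, ho⟩ := exists_lift_finite (QuotientGroup.mk' M)
  have hne : ∀ N : OpenNormalSubgroup F2, (S3x.KK ρ N).Nonempty := by
    intro N
    have : Finite (F2 ⧸ N.toSubgroup) := Nat.finite_of_card_ne_zero (card_pos N).ne'
    have hfi : (N.toSubgroup.comap (eta (FreeGroup (Fin 2)))).FiniteIndex := by
      have h1 : N.toSubgroup.comap (eta (FreeGroup (Fin 2))) =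
          ((QuotientGroup.mk' N.toSubgroup).comp (eta (FreeGroup (Fin 2)))).ker := by
        ext g
        rw [Subgroup.mem_comap, MonoidHom.mem_ker, MonoidHom.comp_apply, QuotientGroup.mk'_apply,
          QuotientGroup.eq_one_iff]
      rw [h1]
      exact Subgroup.finiteIndex_ker _
    obtain ⟨l, hl, hn⟩ := hcon (N.toSubgroup.comap (eta (FreeGroup (Fin 2)))) inferInstance hfi
    refine ⟨eta (FreeGroup (Fin 2)) l, ?_, fun n h => hn n ?_⟩
    · rw [Subgroup.mem_comap, map_mul, map_mul, map_mul, map_inv, map_inv] at hl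
      exact hl
    · have e1 : eta (FreeGroup (Fin 2)) l * X ^ n = eta (FreeGroup (Fin 2)) (l * FreeGroup.of 0 ^ n) := by
        rw [map_mul, map_zpow]
        rfl
      rw [e1, hρ] at h
      exact (QuotientGroup.eq_one_iff _).1 h
  have hdir : Directed (· ⊇ ·) (S3x.KK ρ) := by
    intro N N'
    refine ⟨N ⊓ N', fun t ht => ⟨(Subgroup.mem_inf.1 ht.1).1, ht.2⟩, fun t ht => ⟨(Subgroup.mem_inf.1 ht.1).2, ht.2⟩⟩
  obtain ⟨N0⟩ : Nonempty (OpenNormalSubgroup F2) :=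
    ⟨{ toOpenSubgroup := ⊤, isNormal' := (inferInstance : (⊤ : Subgroup F2).Normal) }⟩
  have : Nonempty (OpenNormalSubgroup F2) := ⟨N0⟩
  obtain ⟨t, ht⟩ := IsCompact.nonempty_iInter_of_directed_nonempty_isCompact_isClosed (S3x.KK ρ) hdir hne
    (fun N => (S3x.closed_KK ρ ho N).isCompact) (fun N => S3x.closed_KK ρ ho N)
  rw [Set.mem_iInter] at ht
  have hcom : t * X = X * t := by
    have h1 : t * X * t⁻¹ * X⁻¹ = 1 := by
      apply eq_of_forall_mk_eq
      intro N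
      rw [QuotientGroup.mk_one]
      exact (QuotientGroup.eq_one_iff _).2 (ht N).1
    have h2 : t * X * t⁻¹ = X := mul_inv_eq_one.1 h1
    exact mul_inv_eq_iff_eq_mul.1 h2
  obtain ⟨n, hn⟩ := E3x.exists_pow_X hcom ρ.ker inferInstance ho
  refine (ht N0).2 (-n) ?_
  rw [MonoidHom.mem_ker, map_mul, map_inv, inv_mul_eq_one] at hn
  rw [map_mul, ← hn, zpow_neg, zpow_natCast, map_inv, mul_inv_cancel]

end Pool.Agent.H371.LG.GO
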