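import Pool.Agent.H371.LG3.S2
import Pool.Agent.H371.LG3.S3

set_option autoImplicit false

namespace Pool.Agent.H371.LG.GO

open Pool.Agent.H371.GT

variable {m : ℕ}

namespace S4x

open Pool.Agent.Q171.AS (sA Φ FF gen e4 ex4)

theorem finHom (G : Type) [Group G] [Finite G] : Finite (FF →* G) :=
  Finite.of_equiv (Fin 2 → G) FreeGroup.lift

/-- action on homomorphisms -/
def act (G : Type) [Group G] : MulAut FF →* Equiv.Perm (FF →* G) where
  toFun e :=
    { toFun := fun f => f.comp (MulEquiv.toMonoidHom (e⁻¹ : MulAut FF))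
      invFun := fun f => f.comp (MulEquiv.toMonoidHom (e : MulAut FF))
      left_inv := fun f => by
        apply MonoidHom.ext
        intro w
        show f (e⁻¹ (e w)) = f w
        rw [MulAut.inv_apply_self]
      right_inv := fun f => by
        apply MonoidHom.ext
        intro w
        show f (e (e⁻¹ w)) = f w
        rw [MulAut.apply_inv_self] }
  map_one' := by
    apply Equiv.ext
    intro f
    apply MonoidHom.ext
    intro w
    rfl
  map_mul' := by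
    intro a b
    apply Equiv.ext
    intro f
    apply MonoidHom.ext
    intro w
    show f ((a * b)⁻¹ w) = f (b⁻¹ (a⁻¹ w))
    rw [mul_inv_rev, MulAut.mul_apply]

/-- the words which preserve all homomorphisms to `G` -/
def Inv (G : Type) [Group G] : Subgroup FF := ((act G).comp Φ).ker

theorem Inv_normal (G : Type) [Group G] : (Inv G).Normal := by
  unfold Inv
  infer_instance

theorem Inv_fi (G : Type) [Group G] [Finite G] : (Inv G).FiniteIndex := by
  have := finHom G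
  unfold Inv
  infer_instance

theorem mem_Inv {G : Type} [Group G] {l : FF} (h : l ∈ Inv G) (f : FF →* G) (w : FF) :
    f (Φ l w) = f w := by
  have h1 : act G (Φ l) = 1 := h
  have h2 : (act G (Φ l)) f = f := by rw [h1]; rfl
  have h3 : f ((Φ l)⁻¹ (Φ l w)) = f (Φ l w) := DFunLike.congr_fun h2 (Φ l w)
  rw [MulAut.inv_apply_self] at h3
  exact h3.symm

theorem mul_conj (φ : MulAut FF) (x : FF) : φ * MulAut.conj x = MulAut.conj (φ x) * φ := by
  apply MulEquiv.ext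
  intro w
  simp [MulAut.mul_apply, MulAut.conj_apply]

theorem key_id (r0 r' l : FF) : ∃ r'' : FF,
    (MulAut.conj r0 * Φ l) * sA * (MulAut.conj r' * sA * (MulAut.conj r0 * Φ l))⁻¹ =
      MulAut.conj r'' * Φ (l * FreeGroup.of 0 * l⁻¹ * (FreeGroup.of 0)⁻¹) := by
  obtain ⟨Q, hQ⟩ : ∃ Q : MulAut FF, Q = Φ l * sA * (Φ l)⁻¹ := ⟨_, rfl⟩
  obtain ⟨C, hC⟩ : ∃ C : MulAut FF, C = Φ (l * FreeGroup.of 0 * l⁻¹ * (FreeGroup.of 0)⁻¹) := ⟨_, rfl⟩
  have hCQ : C = Q * sA⁻¹ := by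
    rw [hC, hQ, map_mul, map_mul, map_mul, map_inv, map_inv, Pool.Agent.Q171.AS.Φ_0]
  refine ⟨r0 * Q r0⁻¹ * C r'⁻¹, ?_⟩
  have h1 : (MulAut.conj r0 * Φ l) * sA * (MulAut.conj r' * sA * (MulAut.conj r0 * Φ l))⁻¹ =
      MulAut.conj r0 * (Q * MulAut.conj r0⁻¹) * sA⁻¹ * MulAut.conj r'⁻¹ := by
    rw [map_inv, map_inv, hQ]
    group
  have h2 := mul_conj C r'⁻¹
  have h3 := mul_conj Q r0⁻¹
  have h4 : MulAut.conj (r0 * Q r0⁻¹ * C r'⁻¹) =
      MulAut.conj r0 * MulAut.conj (Q r0⁻¹) * MulAut.conj (C r'⁻¹) := by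
    rw [map_mul, map_mul]
  rw [← hC, h1, h3, h4]
  calc MulAut.conj r0 * (MulAut.conj (Q r0⁻¹) * Q) * sA⁻¹ * MulAut.conj r'⁻¹
      = MulAut.conj r0 * MulAut.conj (Q r0⁻¹) * ((Q * sA⁻¹) * MulAut.conj r'⁻¹) := by
        simp only [mul_assoc]
    _ = MulAut.conj r0 * MulAut.conj (Q r0⁻¹) * (C * MulAut.conj r'⁻¹) := by rw [hCQ]
    _ = _ := by rw [h2]; simp only [mul_assoc]

theorem ev_eta (w : FF) : ev X (X * X * Y) (eta FF w) = eta FF (sA w) := by
  have : (ev X (X * X * Y)).toMonoidHom.comp (eta FF) =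
      (eta FF).comp (MulEquiv.toMonoidHom sA) := by
    apply FreeGroup.ext_hom
    intro i
    fin_cases i
    · show ev X (X * X * Y) X = eta FF (sA (FreeGroup.of 0))
      rw [ev_X, Pool.Agent.Q171.AS.sA_X]
      rfl
    · show ev X (X * X * Y) Y = eta FF (sA (FreeGroup.of 1))
      rw [ev_Y, Pool.Agent.Q171.AS.sA_Y, map_mul, map_mul]
      rfl
  exact DFunLike.congr_fun this w

theorem derived_ker {A : Type} [CommGroup A] (ρ : F2 →* A) (ho : IsOpen (ρ.ker : Set F2)) {x : F2}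
    (hx : x ∈ derived) : ρ x = 1 := by
  have hc : IsClosed (ρ.ker : Set F2) := Subgroup.isClosed_of_isOpen _ ho
  have h1 : (commutator F2 : Set F2) ⊆ ρ.ker := Abelianization.commutator_subset_ker ρ
  exact (closure_minimal h1 hc) hx

theorem sA_zX (n : ℤ) : (sA ^ n) (FreeGroup.of 0 : FF) = FreeGroup.of 0 := by
  induction n using Int.induction_on with
  | zero => simp
  | succ n ih =>
    rw [zpow_add_one, MulAut.mul_apply, Pool.Agent.Q171.AS.sA_X]
    exact ih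
  | pred n ih =>
    rw [zpow_sub_one, MulAut.mul_apply]
    have : (sA⁻¹ : MulAut FF) (FreeGroup.of 0) = FreeGroup.of 0 := Pool.Agent.Q171.AS.sA_inv_X
    rw [this]
    exact ih

theorem sA_zY (n : ℤ) : (sA ^ n) (FreeGroup.of 1 : FF) =
    (FreeGroup.of 0 * FreeGroup.of 0) ^ n * FreeGroup.of 1 := by
  induction n using Int.induction_on with
  | zero => simp
  | succ n ih =>
    rw [zpow_add_one, MulAut.mul_apply, Pool.Agent.Q171.AS.sA_Y, map_mul, map_mul]
    rw [show (sA ^ (n : ℤ)) (FreeGroup.of 0 : FF) = FreeGroup.of 0 from sA_zX n, ih, ← mul_assoc,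
      ← zpow_one_add, add_comm]
  | pred n ih =>
    rw [zpow_sub_one, MulAut.mul_apply]
    have : (sA⁻¹ : MulAut FF) (FreeGroup.of 1) =
        (FreeGroup.of 0)⁻¹ * (FreeGroup.of 0)⁻¹ * FreeGroup.of 1 := Pool.Agent.Q171.AS.sA_inv_Y
    rw [this, map_mul, map_mul, map_inv,
      show (sA ^ (-(n : ℤ))) (FreeGroup.of 0 : FF) = FreeGroup.of 0 from sA_zX _, ih, ← mul_assoc,
      ← mul_inv_rev, ← zpow_neg_one, ← zpow_add]
    congr 2
    ring

theorem loc (ψ : MulAut F2) (hc : Continuous ψ) (hcl : InCl ψ)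
    (hab : ∀ u, ψ u * u⁻¹ ∈ derived) (r : F2)
    (hS : ∀ u, ψ (ev X (X * X * Y) u) = r * ev X (X * X * Y) (ψ u) * r⁻¹)
    (N0 : OpenNormalSubgroup F2) :
    ∃ h : F2, ∀ u, (h * u * h⁻¹)⁻¹ * ψ u ∈ N0.toSubgroup := by
  have hG : Finite (F2 ⧸ N0.toSubgroup) := inferInstance
  have ia := Inv_normal (F2 ⧸ N0.toSubgroup)
  have ib := Inv_fi (F2 ⧸ N0.toSubgroup)
  obtain ⟨k, hk⟩ : ∃ k : ℕ, k = (Inv (F2 ⧸ N0.toSubgroup)).index := ⟨_, rfl⟩
  have hk0 : k ≠ 0 := by rw [hk]; exact ib.index_ne_zero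
  have : NeZero (4 * k) := ⟨by omega⟩
  have ic := Inv_normal (Multiplicative (ZMod (4 * k)))
  have id' := Inv_fi (Multiplicative (ZMod (4 * k)))
  obtain ⟨M1, hM1n, hM1f, hM1⟩ :=
    exists_centr (Inv (F2 ⧸ N0.toSubgroup) ⊓ Inv (Multiplicative (ZMod (4 * k))))
  obtain ⟨N1, hN1⟩ := exists_open M1
  obtain ⟨ρ0, h00, h01, ho0⟩ := exists_finite_XY (H := Multiplicative (ZMod (4 * k)))
    (Multiplicative.ofAdd 1) 1
  obtain ⟨ρ1, h10, h11, ho1⟩ := exists_finite_XY (H := Multiplicative (ZMod (4 * k)))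
    1 (Multiplicative.ofAdd 1)
  have hSn : (N1.toSubgroup.comap (ev X (X * X * Y)).toMonoidHom).Normal :=
    Subgroup.Normal.comap N1.isNormal' _
  have hSo : IsOpen ((N1.toSubgroup.comap (ev X (X * X * Y)).toMonoidHom : Subgroup F2) : Set F2) := by
    have h2 : IsOpen (N1.toSubgroup : Set F2) := N1.toOpenSubgroup.isOpen
    exact h2.preimage (ev X (X * X * Y)).continuous_toFun
  have o0 : IsOpen (N0.toSubgroup : Set F2) := N0.toOpenSubgroup.isOpen
  have o1 : IsOpen (N1.toSubgroup : Set F2) := N1.toOpenSubgroup.isOpen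
  have n0 : N0.toSubgroup.Normal := N0.isNormal'
  have n1 : N1.toSubgroup.Normal := N1.isNormal'
  have nr0 : ρ0.ker.Normal := inferInstance
  have nr1 : ρ1.ker.Normal := inferInstance
  let N' : OpenNormalSubgroup F2 :=
    { toSubgroup := (N0.toSubgroup ⊓ N1.toSubgroup) ⊓
        ((N1.toSubgroup.comap (ev X (X * X * Y)).toMonoidHom) ⊓ (ρ0.ker ⊓ ρ1.ker))
      isOpen' := (o0.inter o1).inter (hSo.inter (ho0.inter ho1))
      isNormal' := by
        have a1 := Subgroup.normal_inf_normal N0.toSubgroup N1.toSubgroup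
        have a2 := Subgroup.normal_inf_normal ρ0.ker ρ1.ker
        have a3 := Subgroup.normal_inf_normal
          (N1.toSubgroup.comap (ev X (X * X * Y)).toMonoidHom) (ρ0.ker ⊓ ρ1.ker)
        exact Subgroup.normal_inf_normal _ _ }
  obtain ⟨e, he⟩ := hcl N'
  have he0 : ∀ w, (eta FF (e w))⁻¹ * ψ (eta FF w) ∈ N0.toSubgroup := fun w => (he w).1.1
  have he1 : ∀ w, (eta FF (e w))⁻¹ * ψ (eta FF w) ∈ N1.toSubgroup := fun w => (he w).1.2
  have he2 : ∀ w, ev X (X * X * Y) ((eta FF (e w))⁻¹ * ψ (eta FF w)) ∈ N1.toSubgroup :=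
    fun w => (he w).2.1
  have he3 : ∀ w, ρ0 ((eta FF (e w))⁻¹ * ψ (eta FF w)) = 1 := fun w => (he w).2.2.1
  have he4 : ∀ w, ρ1 ((eta FF (e w))⁻¹ * ψ (eta FF w)) = 1 := fun w => (he w).2.2.2
  have f0 : ∀ w, ρ0 (eta FF (e w)) = ρ0 (eta FF w) := by
    intro w
    have a1 := he3 w
    have a2 := derived_ker ρ0 ho0 (hab (eta FF w))
    rw [map_mul, map_inv, inv_mul_eq_one] at a1
    rw [map_mul, map_inv, mul_inv_eq_one] at a2
    rw [a1, a2]
  have f1 : ∀ w, ρ1 (eta FF (e w)) = ρ1 (eta FF w) := by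
    intro w
    have a1 := he4 w
    have a2 := derived_ker ρ1 ho1 (hab (eta FF w))
    rw [map_mul, map_inv, inv_mul_eq_one] at a1
    rw [map_mul, map_inv, mul_inv_eq_one] at a2
    rw [a1, a2]
  let cc : Multiplicative (ZMod (4 * k)) →* Multiplicative (ZMod 4) :=
    AddMonoidHom.toMultiplicative (ZMod.castHom (Dvd.intro k rfl) (ZMod 4)).toAddMonoidHom
  have hcc : cc (Multiplicative.ofAdd 1) = Multiplicative.ofAdd 1 := by
    show Multiplicative.ofAdd (ZMod.castHom (Dvd.intro k rfl) (ZMod 4) 1) = _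
    rw [map_one]
  have g0 : ex4 0 = (cc.comp ρ0).comp (eta FF) := by
    apply Pool.Agent.Q171.AS.ext2
    · show ex4 0 (FreeGroup.of 0) = cc (ρ0 X)
      rw [h00, hcc]
      simp [ex4]
    · show ex4 0 (FreeGroup.of 1) = cc (ρ0 Y)
      rw [h01, map_one]
      simp [ex4]
  have g1 : ex4 1 = (cc.comp ρ1).comp (eta FF) := by
    apply Pool.Agent.Q171.AS.ext2
    · show ex4 1 (FreeGroup.of 0) = cc (ρ1 X)
      rw [h10, map_one]
      simp [ex4]
    · show ex4 1 (FreeGroup.of 1) = cc (ρ1 Y)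
      rw [h11, hcc]
      simp [ex4]
  have k0 : ∀ w, e4 0 (e w) = e4 0 w := by
    intro w
    unfold e4
    rw [g0]
    show (cc (ρ0 (eta FF (e w)))).toAdd = (cc (ρ0 (eta FF w))).toAdd
    rw [f0]
  have k1 : ∀ w, e4 1 (e w) = e4 1 w := by
    intro w
    unfold e4
    rw [g1]
    show (cc (ρ1 (eta FF (e w)))).toAdd = (cc (ρ1 (eta FF w))).toAdd
    rw [f1]
  obtain ⟨r0, l, hel⟩ := gen e (by rw [k0]; exact Pool.Agent.Q171.AS.e4_00)
    (by rw [k0]; exact Pool.Agent.Q171.AS.e4_01) (by rw [k1]; exact Pool.Agent.Q171.AS.e4_10)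
    (by rw [k1]; exact Pool.Agent.Q171.AS.e4_11)
  -- the element `r`
  obtain ⟨r', hr'⟩ := exists_approx (QuotientGroup.mk' N1.toSubgroup)
    (by rw [QuotientGroup.ker_mk']; exact o1) r
  have hba : ∀ w, (eta FF ((e * sA) w))⁻¹ * eta FF ((MulAut.conj r' * sA * e) w) ∈
      N1.toSubgroup := by
    intro w
    rw [← QuotientGroup.eq]
    have a1 : ∀ v, (QuotientGroup.mk' N1.toSubgroup) (eta FF (e v)) =
        (QuotientGroup.mk' N1.toSubgroup) (ψ (eta FF v)) := fun v =>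
      QuotientGroup.eq.2 (he1 v)
    have a2 : (QuotientGroup.mk' N1.toSubgroup) (ev X (X * X * Y) (eta FF (e w))) =
        (QuotientGroup.mk' N1.toSubgroup) (ev X (X * X * Y) (ψ (eta FF w))) := by
      apply QuotientGroup.eq.2
      have := he2 w
      rwa [map_mul, map_inv] at this
    show (QuotientGroup.mk' N1.toSubgroup) (eta FF (e (sA w))) =
      (QuotientGroup.mk' N1.toSubgroup) (eta FF (r' * sA (e w) * r'⁻¹))
    rw [a1, ← ev_eta, hS, map_mul, map_mul, map_inv, ← a2, ev_eta, ← hr', map_mul (eta FF),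
      map_mul (eta FF), map_inv (eta FF), map_mul, map_mul, map_inv]
  obtain ⟨r'', hr''⟩ := key_id r0 r' l
  rw [← hel] at hr''
  have hc1 : l * FreeGroup.of 0 * l⁻¹ * (FreeGroup.of 0)⁻¹ ∈ M1 := by
    apply hN1 r''
    intro w
    rw [← hr'']
    have := hba ((MulAut.conj r' * sA * e)⁻¹ w)
    rw [MulAut.apply_inv_self] at this
    show (eta FF ((e * sA) ((MulAut.conj r' * sA * e)⁻¹ w)))⁻¹ * eta FF w ∈ N1.toSubgroup
    exact this
  obtain ⟨n, hn⟩ := hM1 l hc1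
  -- `k` divides `n`
  have hkn : (k : ℤ) ∣ n := by
    have b1 : ∀ w, ρ0 (eta FF (Φ l w)) = ρ0 (eta FF w) := by
      intro w
      have := f0 w
      rw [hel, MulAut.mul_apply, MulAut.conj_apply, map_mul, map_mul, map_mul, map_mul, map_inv,
        map_inv, mul_comm (ρ0 (eta FF r0)), mul_inv_cancel_right] at this
      exact this
    have b2 := mem_Inv hn.2 (ρ0.comp (eta FF)) (FreeGroup.of 1)
    have b3 : Φ (l * FreeGroup.of 0 ^ n) (FreeGroup.of 1) =
        Φ l ((FreeGroup.of 0 * FreeGroup.of 0) ^ n * FreeGroup.of 1) := by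
      rw [map_mul, map_zpow, Pool.Agent.Q171.AS.Φ_0, MulAut.mul_apply, sA_zY]
    rw [b3] at b2
    have b4 : ρ0 (eta FF (Φ l ((FreeGroup.of 0 * FreeGroup.of 0) ^ n * FreeGroup.of 1))) =
      ρ0 (eta FF (FreeGroup.of 1)) := b2
    rw [b1, map_mul, map_mul, map_zpow, map_zpow, map_mul, map_mul] at b4
    have b5 : (ρ0 (eta FF (FreeGroup.of 0)) * ρ0 (eta FF (FreeGroup.of 0))) ^ n = 1 := by
      rwa [mul_eq_right] at b4
    have b6 : ρ0 (eta FF (FreeGroup.of 0)) = Multiplicative.ofAdd 1 := h00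
    rw [b6, ← ofAdd_add, ← ofAdd_zsmul] at b5
    have b7 : n • ((1 : ZMod (4 * k)) + 1) = 0 := Multiplicative.ofAdd.injective b5
    rw [zsmul_eq_mul] at b7
    have b8 : (((n * 2 : ℤ)) : ZMod (4 * k)) = 0 := by
      push_cast
      rw [← b7]
      ring
    rw [ZMod.intCast_zmod_eq_zero_iff_dvd] at b8
    obtain ⟨c, hc⟩ := b8
    refine ⟨2 * c, ?_⟩
    push_cast at hc
    linarith
  obtain ⟨c, hcn⟩ := hkn
  have hl : l ∈ Inv (F2 ⧸ N0.toSubgroup) := by
    have c1 : (FreeGroup.of 0 : FF) ^ n ∈ Inv (F2 ⧸ N0.toSubgroup) := by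
      rw [hcn, zpow_mul, zpow_natCast, hk]
      exact zpow_mem (Subgroup.pow_index_mem _ _) c
    have c0 : l * FreeGroup.of 0 ^ n ∈ Inv (F2 ⧸ N0.toSubgroup) := hn.1
    have c2 := (Inv (F2 ⧸ N0.toSubgroup)).mul_mem c0 ((Inv (F2 ⧸ N0.toSubgroup)).inv_mem c1)
    rwa [mul_inv_cancel_right] at c2
  refine ⟨eta FF r0, ?_⟩
  have hcl2 : IsClosed {u : F2 | (eta FF r0 * u * (eta FF r0)⁻¹)⁻¹ * ψ u ∈ N0.toSubgroup} := by
    have hc' : IsClosed (N0.toSubgroup : Set F2) := N0.toOpenSubgroup.isClosed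
    exact hc'.preimage (by fun_prop : Continuous fun u : F2 =>
      (eta FF r0 * u * (eta FF r0)⁻¹)⁻¹ * ψ u)
  have hdense : ∀ u : F2, u ∈ {u : F2 | (eta FF r0 * u * (eta FF r0)⁻¹)⁻¹ * ψ u ∈ N0.toSubgroup} := by
    intro u
    refine hcl2.closure_subset_iff.2 ?_ (denseRange_eta FF u)
    rintro _ ⟨w, rfl⟩
    show (eta FF r0 * eta FF w * (eta FF r0)⁻¹)⁻¹ * ψ (eta FF w) ∈ N0.toSubgroup
    rw [← QuotientGroup.eq]
    have d1 : (QuotientGroup.mk' N0.toSubgroup) (eta FF (e w)) =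
        (QuotientGroup.mk' N0.toSubgroup) (ψ (eta FF w)) := QuotientGroup.eq.2 (he0 w)
    have d2 := mem_Inv hl ((QuotientGroup.mk' N0.toSubgroup).comp (eta FF)) w
    have d3 : (QuotientGroup.mk' N0.toSubgroup) (eta FF (Φ l w)) =
        (QuotientGroup.mk' N0.toSubgroup) (eta FF w) := d2
    show (QuotientGroup.mk' N0.toSubgroup) (eta FF r0 * eta FF w * (eta FF r0)⁻¹) =
      (QuotientGroup.mk' N0.toSubgroup) (ψ (eta FF w))
    rw [← d1, hel, MulAut.mul_apply, MulAut.conj_apply, map_mul, map_mul, map_inv, map_mul (eta FF),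
      map_mul (eta FF), map_inv (eta FF), map_mul, map_mul, map_inv, d3]
  exact hdense

end S4x

theorem csp_inner (ψ : MulAut F2) (hc : Continuous ψ) (hcl : InCl ψ)
    (hab : ∀ u, ψ u * u⁻¹ ∈ derived) (r : F2)
    (hS : ∀ u, ψ (ev X (X * X * Y) u) = r * ev X (X * X * Y) (ψ u) * r⁻¹) :
    ∃ w, ∀ u, ψ u = w * u * w⁻¹ := by
  have hclosed : ∀ N : OpenNormalSubgroup F2,
      IsClosed {h : F2 | ∀ u, (h * u * h⁻¹)⁻¹ * ψ u ∈ N.toSubgroup} := by
    intro N
    have e : {h : F2 | ∀ u, (h * u * h⁻¹)⁻¹ * ψ u ∈ N.toSubgroup} =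
        ⋂ u, (fun h : F2 => (h * u * h⁻¹)⁻¹ * ψ u) ⁻¹' (N.toSubgroup : Set F2) := by
      ext h
      simp only [Set.mem_ofPred_eq, Set.mem_iInter, Set.mem_preimage, SetLike.mem_coe]
    rw [e]
    refine isClosed_iInter fun u => ?_
    have hc : IsClosed (N.toSubgroup : Set F2) := N.toOpenSubgroup.isClosed
    refine hc.preimage ?_
    fun_prop
  have key : ∀ N : OpenNormalSubgroup F2,
      {h : F2 | ∀ u, (h * u * h⁻¹)⁻¹ * ψ u ∈ N.toSubgroup}.Nonempty :=
    fun N => S4x.loc ψ hc hcl hab r hS N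
  have hne : (⋂ N : OpenNormalSubgroup F2,
      {h : F2 | ∀ u, (h * u * h⁻¹)⁻¹ * ψ u ∈ N.toSubgroup}).Nonempty := by
    have : Nonempty (OpenNormalSubgroup F2) := ⟨{ toSubgroup := ⊤, isOpen' := isOpen_univ }⟩
    refine IsCompact.nonempty_iInter_of_directed_nonempty_isCompact_isClosed _ ?_ key
      (fun N => (hclosed N).isCompact) hclosed
    intro N N'
    refine ⟨N ⊓ N', fun h hh u => (hh u).1, fun h hh u => (hh u).2⟩
  obtain ⟨h, hh⟩ := hne
  refine ⟨h, fun u => ?_⟩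
  symm
  apply eq_of_forall_mk_eq
  intro N
  rw [QuotientGroup.eq]
  exact Set.mem_iInter.1 hh N u

end Pool.Agent.H371.LG.GO
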