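import Pool.Agent.H371.LG3.T1
import Pool.Agent.H371.LG.E3

set_option autoImplicit false

namespace Pool.Agent.H371.LG.GO

open Pool.Agent.H371.GT

variable {m : ℕ}

namespace T2x

/-- continuous homomorphisms which agree on `X` agree on the elements commuting with `X` -/
theorem agree (f₁ f₂ : F2 →ₜ* F2) (h : f₁ X = f₂ X) {t : F2} (ht : t * X = X * t) :
    f₁ t = f₂ t := by
  apply eq_of_forall_mk_eq
  intro N
  rw [QuotientGroup.eq]
  have hn1 : (N.toSubgroup.comap f₁.toMonoidHom).Normal :=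
    (inferInstance : N.toSubgroup.Normal).comap _
  have hn2 : (N.toSubgroup.comap f₂.toMonoidHom).Normal :=
    (inferInstance : N.toSubgroup.Normal).comap _
  have ho1 : IsOpen ((N.toSubgroup.comap f₁.toMonoidHom : Subgroup F2) : Set F2) :=
    N.isOpen'.preimage f₁.continuous_toFun
  have ho2 : IsOpen ((N.toSubgroup.comap f₂.toMonoidHom : Subgroup F2) : Set F2) :=
    N.isOpen'.preimage f₂.continuous_toFun
  obtain ⟨n, hn⟩ := E3x.exists_pow_X ht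
    (N.toSubgroup.comap f₁.toMonoidHom ⊓ N.toSubgroup.comap f₂.toMonoidHom) inferInstance
    (by
      rw [Subgroup.coe_inf]
      exact ho1.inter ho2)
  obtain ⟨h1, h2⟩ := Subgroup.mem_inf.1 hn
  have h3 : f₁ ((X ^ n)⁻¹ * t) ∈ N.toSubgroup := h1
  have h4 : f₂ ((X ^ n)⁻¹ * t) ∈ N.toSubgroup := h2
  rw [map_mul, map_inv, map_pow] at h3 h4
  have h5 : (f₁ t)⁻¹ * f₂ t = ((f₁ X ^ n)⁻¹ * f₁ t)⁻¹ * ((f₂ X ^ n)⁻¹ * f₂ t) := by
    rw [h]
    group
  rw [h5]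
  exact N.toSubgroup.mul_mem (N.toSubgroup.inv_mem h3) h4

/-- conjugation as a continuous homomorphism -/
def cj (w : F2) : F2 →ₜ* F2 :=
  ⟨(MulAut.conj w).toMonoidHom, by
    change Continuous fun u : F2 => w * u * w⁻¹
    fun_prop⟩

theorem cj_apply (w u : F2) : cj w u = w * u * w⁻¹ := rfl

end T2x

theorem psi_not_inner (σ : MulAut F2) (hσ : Exotic σ) (b : F2) (ψ : MulAut F2)
    (h : IsPsi σ b ψ) : ¬ ∃ w, ∀ u, ψ u = w * u * w⁻¹ := by
  rintro ⟨w, hw⟩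
  obtain ⟨hψ, hσY, -, hX, hY⟩ := h
  obtain ⟨c, hc⟩ : ∃ c, c = ev LL X b := ⟨_, rfl⟩
  rw [← hc] at hX hY
  obtain ⟨t, ht⟩ : ∃ t, t = Y⁻¹ * w * Y := ⟨_, rfl⟩
  -- `w` commutes with `Y X Y⁻¹`
  have h1 : ψ (Y * X * Y⁻¹) = Y * X * Y⁻¹ := by
    rw [map_mul, map_mul, map_inv, hX, hY]
    group
  have h2 : w * (Y * X * Y⁻¹) = (Y * X * Y⁻¹) * w := by
    have h3 := hw (Y * X * Y⁻¹)
    rw [h1] at h3
    exact (eq_mul_inv_iff_mul_eq.1 h3).symm
  have htX : t * X = X * t := by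
    have h3 : t * X = Y⁻¹ * (w * (Y * X * Y⁻¹)) * Y := by rw [ht]; group
    have h4 : X * t = Y⁻¹ * ((Y * X * Y⁻¹) * w) * Y := by rw [ht]; group
    rw [h3, h4, h2]
  have hwt : w = Y * t * Y⁻¹ := by rw [ht]; group
  -- `c = w t⁻¹`
  have hct : c = w * t⁻¹ := by
    have h3 := hw Y
    rw [hY] at h3
    have h4 : c⁻¹ = t * w⁻¹ := by
      have h5 : c⁻¹ = Y⁻¹ * (Y * c⁻¹) := by group
      rw [h5, h3, ht]
      group
    have h6 : c = (c⁻¹)⁻¹ := by group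
    rw [h6, h4]
    group
  obtain ⟨g, hg⟩ : ∃ g, g = ev Y Y t := ⟨_, rfl⟩
  obtain ⟨k, hk⟩ : ∃ k, k = ev (X * Y) (X * Y) t := ⟨_, rfl⟩
  have hg1 : ev LL X g = t := by
    have h3 := T2x.agree ((ev LL X).comp (ev Y Y)) (ContinuousMonoidHom.id F2) (by
      change ev LL X (ev Y Y X) = X
      rw [ev_X, ev_Y]) htX
    rw [hg]
    exact h3
  have hk1 : ev LL X k = w := by
    have h3 := T2x.agree ((ev LL X).comp (ev (X * Y) (X * Y))) (T2x.cj Y) (by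
      change ev LL X (ev (X * Y) (X * Y) X) = Y * X * Y⁻¹
      rw [ev_X, map_mul, ev_X, ev_Y, LL]
      group) htX
    rw [hk, hwt]
    exact h3
  have hb : b = k * g⁻¹ := by
    apply ev_injective
    rw [map_mul, map_inv, hg1, hk1, ← hc, hct]
  have hgY : g * Y = Y * g := by
    have h3 := congrArg (ev Y Y) htX
    rw [map_mul, map_mul, ev_X, ← hg] at h3
    exact h3
  have hkZ : k * (X * Y) = (X * Y) * k := by
    have h3 := congrArg (ev (X * Y) (X * Y)) htX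
    rw [map_mul, map_mul, ev_X, ← hk] at h3
    exact h3
  have hsY : σ Y = k * Y * k⁻¹ := by
    have h3 : b * Y * b⁻¹ = k * (g⁻¹ * (Y * g)) * k⁻¹ := by rw [hb]; group
    rw [hσY, h3, ← hgY]
    group
  have hsX : σ X = k * X * k⁻¹ := by
    have h3 : σ X = σ (X * Y) * (σ Y)⁻¹ := by rw [map_mul]; group
    have h4 : X * Y = k * (X * Y) * k⁻¹ := by
      rw [hkZ]
      group
    rw [h3, hσ.2.2.2.1, hsY]
    calc X * Y * (k * Y * k⁻¹)⁻¹ = k * (X * Y) * k⁻¹ * (k * Y * k⁻¹)⁻¹ := by rw [← h4]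
      _ = k * X * k⁻¹ := by group
  apply hσ.2.2.2.2
  refine ⟨k, fun u => ?_⟩
  have h3 : (⟨σ.toMonoidHom, hσ.1⟩ : F2 →ₜ* F2) = T2x.cj k := by
    apply hom_ext_XY
    · exact hsX
    · exact hsY
  exact DFunLike.congr_fun h3 u

end Pool.Agent.H371.LG.GO
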