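import Pool.Agent.H371.LG3.P2
import Pool.Agent.H371.LG3.P3
import Pool.Agent.H371.LG3.C1
import Pool.Agent.H371.LG3.S4
import Pool.Agent.H371.LG3.T2
import Pool.Agent.H371.LG2.E4
import Pool.Agent.H371.LG.A2
import Pool.Agent.H371.GT.G1

/-!
In type `(1, n)`, `n ≥ 2`: conjugation by an automorphism glued from an exotic automorphism moves the
group `T⁺(π_0)`.
-/

set_option autoImplicit false

namespace Pool.Agent.H371.LG.GO

open Pool.Agent.H371.GT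

variable {m : ℕ}

/-- `f (l_i)` is conjugate to `l_{τ i}` -/
def Per {n : ℕ} (τ : Equiv.Perm (Fin n)) (f : MulAut (Pi 1 n)) : Prop :=
  ∀ i, ∃ a, f (loop i) = a * loop (τ i) * a⁻¹

theorem Per.mul {n : ℕ} {τ ρ : Equiv.Perm (Fin n)} {f g : MulAut (Pi 1 n)} (hf : Per τ f)
    (hg : Per ρ g) : Per (τ * ρ) (f * g) := by
  intro i
  obtain ⟨a, ha⟩ := hg i
  obtain ⟨b, hb⟩ := hf (ρ i)
  refine ⟨f a * b, ?_⟩
  rw [MulAut.mul_apply, ha, map_mul, map_mul, map_inv, hb, Equiv.Perm.mul_apply]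
  group

theorem Per.inv {n : ℕ} {τ : Equiv.Perm (Fin n)} {f : MulAut (Pi 1 n)} (hf : Per τ f) :
    Per τ⁻¹ f⁻¹ := by
  intro i
  obtain ⟨k, rfl⟩ := τ.surjective i
  obtain ⟨a, ha⟩ := hf k
  refine ⟨(f⁻¹ a)⁻¹, ?_⟩
  have h0 : τ⁻¹ (τ k) = k := τ.symm_apply_apply k
  rw [h0]
  have h1 : f⁻¹ (f (loop k)) = f⁻¹ (a * loop (τ k) * a⁻¹) := by rw [ha]
  rw [MulAut.inv_apply_self, map_mul, map_mul, map_inv] at h1
  generalize f⁻¹ a = b at h1 ⊢
  generalize f⁻¹ (loop (τ k)) = c at h1 ⊢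
  rw [h1]
  group

/-- the last loop -/
abbrev la (m : ℕ) : Fin (m + 2) := Fin.last (m + 1)

/-- the loop before the last one -/
abbrev lb (m : ℕ) : Fin (m + 2) := (Fin.last m).castSucc

theorem la_ne : la m ≠ lb m := (Fin.castSucc_ne_last _).symm

/-- the class of the element `u ↦ g u g⁻¹` of the automorphism group, composed with `ψ` -/
theorem twist_comm {ψ : MulAut F2} {r : F2}
    (h : ∀ u, ψ (ev X (X * X * Y) u) = r * ev X (X * X * Y) (ψ u) * r⁻¹) (g : F2) :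
    ∀ u, (MulAut.conj g * ψ) (ev X (X * X * Y) u) =
      (g * r * (ev X (X * X * Y) g)⁻¹) * ev X (X * X * Y) ((MulAut.conj g * ψ) u) *
        (g * r * (ev X (X * X * Y) g)⁻¹)⁻¹ := by
  intro u
  rw [MulAut.mul_apply, MulAut.mul_apply, MulAut.conj_apply, MulAut.conj_apply, h, map_mul, map_mul,
    map_inv]
  group

theorem twist_ab {ψ : MulAut F2} (h : ∀ u, ψ u * u⁻¹ ∈ derived) (g : F2) :
    ∀ u, (MulAut.conj g * ψ) u * u⁻¹ ∈ derived := by
  intro u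
  have h1 : g * ψ u * g⁻¹ * (ψ u)⁻¹ ∈ (commutator F2).topologicalClosure :=
    subset_closure (Subgroup.commutator_mem_commutator (Subgroup.mem_top g) (Subgroup.mem_top (ψ u)))
  have h2 : ψ u * u⁻¹ ∈ (commutator F2).topologicalClosure := h u
  have h3 : (MulAut.conj g * ψ) u * u⁻¹ = g * ψ u * g⁻¹ * (ψ u)⁻¹ * (ψ u * u⁻¹) := by
    rw [MulAut.mul_apply, MulAut.conj_apply]
    group
  show _ ∈ (commutator F2).topologicalClosure
  rw [h3]
  exact mul_mem h1 h2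

theorem psi_ev {σ : MulAut F2} {b : F2} {ψ : MulAut F2} (h : IsPsi σ b ψ) (hσ : Exotic σ) :
    ∀ u, ψ (ev LL X u) = ev LL X (σ u) := by
  obtain ⟨hc, hb, -, hX, hY⟩ := h
  have hE : (⟨ψ.toMonoidHom, hc⟩ : F2 →ₜ* F2).comp (ev LL X) =
      (ev LL X).comp ⟨σ.toMonoidHom, hσ.1⟩ := by
    apply hom_ext_XY
    · show ψ (ev LL X X) = ev LL X (σ X)
      have h1 : σ X = X * Y * (b * Y * b⁻¹)⁻¹ := by
        rw [← hb, ← hσ.2.2.2.1, map_mul]
        group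
      rw [h1, map_mul, map_mul, map_inv, map_mul, map_mul, map_inv, ev_X, ev_Y]
      have h2 : ψ LL = ψ Y * ψ X * (ψ Y)⁻¹ * (ψ X)⁻¹ := by
        unfold LL
        rw [map_mul, map_mul, map_mul, map_inv, map_inv]
      rw [h2, hX, hY]
      generalize ev LL X b = c
      unfold LL
      group
    · show ψ (ev LL X Y) = ev LL X (σ Y)
      rw [hb, map_mul, map_mul, map_inv, ev_Y, hX]
  intro u
  exact DFunLike.congr_fun hE u

theorem psi_pow {σ : MulAut F2} {b : F2} {ψ : MulAut F2} (h : IsPsi σ b ψ) (hσ : Exotic σ) (k : ℕ) :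
    ∃ c, IsPsi (σ ^ k) c (ψ ^ k) := by
  induction k with
  | zero =>
    refine ⟨1, continuous_id, ?_, map_one _, ?_, ?_⟩
    · rw [pow_zero, one_mul, inv_one, mul_one]
      rfl
    · rw [pow_zero, map_one, one_mul, inv_one, mul_one]
      rfl
    · rw [pow_zero, map_one, inv_one, mul_one]
      rfl
  | succ k ih =>
    obtain ⟨c, hc, hb, h1, hX, hY⟩ := ih
    have hev := psi_ev h hσ
    obtain ⟨kc, kb, k1, kX, kY⟩ := h
    have hE : (ev 1 Y).comp ⟨σ.toMonoidHom, hσ.1⟩ = ev 1 Y := by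
      apply hom_ext_XY
      · show ev 1 Y (σ X) = ev 1 Y X
        obtain ⟨a, ha⟩ := hσ.2.1
        rw [ha, map_mul, map_mul, map_inv, ev_X]
        group
      · show ev 1 Y (σ Y) = ev 1 Y Y
        rw [kb, map_mul, map_mul, map_inv, ev_Y, k1]
        group
    refine ⟨σ c * b, ?_, ?_, ?_, ?_, ?_⟩
    · rw [pow_succ']
      exact kc.comp hc
    · rw [pow_succ', MulAut.mul_apply, hb, map_mul, map_mul, map_inv, kb]
      group
    · have e : ev 1 Y (σ c) = ev 1 Y c := DFunLike.congr_fun hE c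
      rw [map_mul, e, h1, k1, mul_one]
    · rw [pow_succ', MulAut.mul_apply, hX, map_mul, map_mul, map_inv, hev, kX, map_mul]
      group
    · rw [pow_succ', MulAut.mul_apply, hY, map_mul, map_inv, hev, kY, map_mul]
      group

/-- `φ` extends `ψ` -/
def IsExt1 (ψ : MulAut F2) (φ : MulAut (Pi 1 (m + 2))) : Prop :=
  Continuous φ ∧ (∃ a, φ (loop (la m)) = a * loop (la m) * a⁻¹) ∧
    (∀ j, j ≠ la m → φ (loop j) = loop j) ∧
    (∀ q, IsQ (la m) q → ∀ u, q (φ u) = ψ (q u)) ∧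
    ∀ i, i ≠ la m → ∀ q, IsQ i q → ∀ u, q (φ u) = q u

theorem isExt1_one : IsExt1 1 (1 : MulAut (Pi 1 (m + 2))) :=
  ⟨continuous_id, ⟨1, by rw [one_mul, inv_one, mul_one]; rfl⟩, fun _ _ => rfl,
    fun _ _ _ => rfl, fun _ _ _ _ _ => rfl⟩

theorem IsExt1.mul {σ τ : MulAut F2} {φ ψ : MulAut (Pi 1 (m + 2))}
    (h : IsExt1 σ φ) (k : IsExt1 τ ψ) : IsExt1 (σ * τ) (φ * ψ) := by
  obtain ⟨hc, ⟨a, ha⟩, hj, hq, hq'⟩ := h
  obtain ⟨kc, ⟨a', ha'⟩, kj, kq, kq'⟩ := k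
  refine ⟨hc.comp kc, ⟨φ a' * a, ?_⟩, fun j h2 => ?_, fun q h1 u => ?_, fun i hi q h1 u => ?_⟩
  · show φ (ψ (loop (la m))) = _
    rw [ha', map_mul, map_mul, map_inv, ha]
    group
  · show φ (ψ (loop j)) = _
    rw [kj j h2, hj j h2]
  · show q (φ (ψ u)) = σ (τ (q u))
    rw [hq q h1, kq q h1]
  · show q (φ (ψ u)) = q u
    rw [hq' i hi q h1, kq' i hi q h1]

theorem IsExt1.pow {σ : MulAut F2} {φ : MulAut (Pi 1 (m + 2))}
    (h : IsExt1 σ φ) (k : ℕ) : IsExt1 (σ ^ k) (φ ^ k) := by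
  induction k with
  | zero =>
    rw [pow_zero, pow_zero]
    exact isExt1_one
  | succ k ih =>
    rw [pow_succ, pow_succ]
    exact ih.mul h

theorem ext3 (σ : MulAut F2) (hσ : Exotic σ) :
    ∃ (b : F2) (ψ : MulAut F2) (φ : MulAut (Pi 1 (m + 2))), IsPsi σ b ψ ∧ IsExt1 ψ φ :=
  exists_ext1 (m := m) σ hσ

theorem half3 : ∃ v : MulAut (Pi 1 (m + 2)), Continuous v ∧ v xg = xg ∧ v yg = yg ∧
    v (loop (la m)) = loop (lb m) ∧
    v (loop (lb m)) = loop (lb m) * loop (la m) * (loop (lb m))⁻¹ ∧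
    (∀ j, j ≠ la m → j ≠ lb m → v (loop j) = loop j) ∧
    (std 1 (m + 2)).map v.toMonoidHom = std 1 (m + 2) :=
  exists_half (m := m)

theorem IsExt1.per {ψ : MulAut F2} {φ : MulAut (Pi 1 (m + 2))} (h : IsExt1 ψ φ) : Per 1 φ := by
  intro i
  by_cases hi : i = la m
  · rw [hi]
    exact h.2.1
  · exact ⟨1, by rw [one_mul, inv_one, mul_one]; exact h.2.2.1 i hi⟩

theorem IsExt1.mem_autLac {ψ : MulAut F2} {φ : MulAut (Pi 1 (m + 2))} (h : IsExt1 ψ φ) :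
    φ ∈ AutLac 1 (m + 2) := by
  refine ⟨h.1, 1, 1, fun j => ?_⟩
  obtain ⟨a, ha⟩ := h.per j
  exact ⟨a, by rw [ha, Equiv.Perm.one_apply, Units.val_one, GT.ppow_one]⟩

theorem moved {σ : MulAut F2} (hσ : Exotic σ) {b : F2} {ψ : MulAut F2} (hψ : IsPsi σ b ψ)
    {φ : MulAut (Pi 1 (m + 2))} (hφ : IsExt1 ψ φ) {v : MulAut (Pi 1 (m + 2))}
    (hv : Continuous v ∧ v xg = xg ∧ v yg = yg ∧ v (loop (la m)) = loop (lb m) ∧
      v (loop (lb m)) = loop (lb m) * loop (la m) * (loop (lb m))⁻¹ ∧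
      (∀ j, j ≠ la m → j ≠ lb m → v (loop j) = loop j) ∧
      (std 1 (m + 2)).map v.toMonoidHom = std 1 (m + 2)) :
    v ∈ TPlus (std 1 (m + 2)) ∧ φ * v * φ⁻¹ ∉ TPlus (std 1 (m + 2)) := by
  obtain ⟨vc, vx, vy, vl, vp, vf, vD⟩ := hv
  have pφ := hφ.per
  have hφL := hφ.mem_autLac
  obtain ⟨φc, φa, φf, φq, φq'⟩ := hφ
  obtain ⟨q, hq⟩ := exists_q (la m)
  obtain ⟨q', hq'⟩ := exists_q (lb m)
  obtain ⟨τ, hτ⟩ : ∃ τ, τ = Equiv.swap (la m) (lb m) := ⟨_, rfl⟩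
  have hvl : Per τ v := by
    intro j
    rw [hτ]
    by_cases h1 : j = la m
    · refine ⟨1, ?_⟩
      rw [one_mul, inv_one, mul_one, h1, Equiv.swap_apply_left]
      exact vl
    · by_cases h2 : j = lb m
      · rw [h2, Equiv.swap_apply_right]
        exact ⟨_, vp⟩
      · refine ⟨1, ?_⟩
        rw [one_mul, inv_one, mul_one, Equiv.swap_apply_of_ne_of_ne h1 h2]
        exact vf j h1 h2
  have hv1 : v ∈ AutLacOne 1 (m + 2) := by
    refine ⟨vc, τ, fun j => ?_⟩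
    obtain ⟨a, ha⟩ := hvl j
    exact ⟨a, by rw [ha, GT.ppow_one]⟩
  have hvS : v ∈ Stab (std 1 (m + 2)) := by
    refine ⟨⟨vc, 1, τ, fun j => ?_⟩, vD⟩
    obtain ⟨a, ha⟩ := hvl j
    exact ⟨a, by rw [ha, Units.val_one, GT.ppow_one]⟩
  have hvS' : v⁻¹ ∈ Stab (std 1 (m + 2)) := by
    refine ⟨autLac_inv hvS.1, ?_⟩
    conv_lhs => rw [← vD]
    rw [Subgroup.map_map]
    have : (v⁻¹ : MulAut (Pi 1 (m + 2))).toMonoidHom.comp v.toMonoidHom = MonoidHom.id _ := by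
      ext u
      exact MulAut.inv_apply_self _ v u
    rw [this, Subgroup.map_id]
  have hvC : v ∈ Clos (Stab (std 1 (m + 2))) :=
    ⟨hvS.1, fun N => ⟨v, hvS, fun u => by rw [inv_mul_cancel]; exact N.one_mem⟩⟩
  refine ⟨⟨1, v, hvC, hv1, by rw [map_one, one_mul]⟩, ?_⟩
  rintro ⟨w, s, hs, hs1, he⟩
  have hs' : s * v⁻¹ ∈ Clos (Stab (std 1 (m + 2))) := clos_mul hs hvS'
  have hsv : s * v⁻¹ = MulAut.conj w⁻¹ * (φ * v * φ⁻¹ * v⁻¹) := by
    rw [he, map_inv]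
    group
  have key : Per 1 (φ * v * φ⁻¹ * v⁻¹) := by
    have := ((pφ.mul hvl).mul pφ.inv).mul (Per.inv hvl)
    rwa [one_mul, inv_one, mul_one, mul_inv_cancel] at this
  have hqv : ∀ u, q (v u) = q' u := by
    have hE := pi1_ext (q.comp ⟨v.toMonoidHom, vc⟩) q'
      (by
        show q (v xg) = q' xg
        rw [vx, hq.1, hq'.1])
      (by
        show q (v yg) = q' yg
        rw [vy, hq.2.1, hq'.2.1])
      (by
        intro j
        show q (v (loop j)) = q' (loop j)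
        by_cases h1 : j = la m
        · rw [h1, hq'.2.2.2 _ la_ne]
          have := hq.2.2.2 _ (la_ne (m := m)).symm
          rw [← this]
          exact congrArg q vl
        · by_cases h2 : j = lb m
          · rw [h2, hq'.2.2.1]
            have e : q (v (loop (lb m))) = q (loop (lb m) * loop (la m) * (loop (lb m))⁻¹) :=
              congrArg q vp
            rw [e, map_mul, map_mul, map_inv, hq.2.2.1, hq.2.2.2 _ (la_ne (m := m)).symm, one_mul,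
              inv_one, mul_one]
          · rw [hq'.2.2.2 _ h2, vf j h1 h2, hq.2.2.2 _ h1])
    intro u
    exact DFunLike.congr_fun hE u
  have hqi : ∀ u, q' (φ⁻¹ u) = q' u := by
    intro u
    have := φq' (lb m) la_ne.symm q' hq' (φ⁻¹ u)
    rw [MulAut.apply_inv_self] at this
    exact this.symm
  have hθ : ∀ u, q ((v * φ⁻¹ * v⁻¹) u) = q u := by
    intro u
    show q (v (φ⁻¹ (v⁻¹ u))) = _
    rw [hqv, hqi, ← hqv, MulAut.apply_inv_self]
  have hψ' : ∀ u, q ((s * v⁻¹) u) = (MulAut.conj (q w)⁻¹ * ψ) (q u) := by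
    intro u
    have e1 : q ((φ * v * φ⁻¹ * v⁻¹) u) = ψ (q u) := by
      have : (φ * v * φ⁻¹ * v⁻¹) u = φ ((v * φ⁻¹ * v⁻¹) u) := rfl
      rw [this, φq q hq, hθ]
    rw [hsv, MulAut.mul_apply, MulAut.conj_apply, map_mul, map_mul, e1, inv_inv, map_inv,
      MulAut.mul_apply, MulAut.conj_apply, inv_inv]
  have hcl := clos_inCl q hq (s * v⁻¹) hs' (by
    intro i
    obtain ⟨a, ha⟩ := key i
    refine ⟨w⁻¹ * a, ?_⟩
    rw [hsv, MulAut.mul_apply, ha, MulAut.conj_apply, Equiv.Perm.one_apply]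
    group) _ hψ'
  obtain ⟨r, hr⟩ := psi_comm σ b ψ hψ
  obtain ⟨x, hx⟩ := csp_inner (MulAut.conj (q w)⁻¹ * ψ)
    (by
      have : Continuous fun u : F2 => (q w)⁻¹ * ψ u * ((q w)⁻¹)⁻¹ :=
        (continuous_const.mul hψ.1).mul continuous_const
      exact this)
    hcl (twist_ab (psi_ab σ b ψ hψ) _) _ (twist_comm hr _)
  apply psi_not_inner σ hσ b ψ hψ
  refine ⟨q w * x, fun u => ?_⟩
  have h1 := hx u
  rw [MulAut.mul_apply, MulAut.conj_apply, inv_inv] at h1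
  have h2 : ψ u = q w * ((q w)⁻¹ * ψ u * q w) * (q w)⁻¹ := by group
  rw [h2, h1]
  group

/-- there is an element of `Aut_lac` no positive power of which normalizes `T⁺(π_0)` -/
theorem main (m : ℕ) : ∃ φ ∈ AutLac 1 (m + 2), ∀ k : ℕ, 0 < k →
    ∃ ψ ∈ TPlus (std 1 (m + 2)), φ ^ k * ψ * (φ ^ k)⁻¹ ∉ TPlus (std 1 (m + 2)) := by
  obtain ⟨σ, hσ⟩ := GN.exists_exotic_pow
  have hσ1 : Exotic σ := by
    have := hσ 1 one_pos
    rwa [pow_one] at this
  obtain ⟨b, ψ, φ, hψ, hφ⟩ := ext3 (m := m) σ hσ1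
  obtain ⟨v, hv⟩ := half3 (m := m)
  refine ⟨φ, hφ.mem_autLac, fun k hk => ?_⟩
  obtain ⟨c, hc⟩ := psi_pow hψ hσ1 k
  have := moved (hσ k hk) hc (hφ.pow k) hv
  exact ⟨v, this.1, this.2⟩

end Pool.Agent.H371.LG.GO
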