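import Pool.Agent.H371.LG3.Defs

set_option autoImplicit false

namespace Pool.Agent.H371.LG.GO

open Pool.Agent.H371.GT

variable {m : ℕ}

namespace P1x

lemma relator_one (n : ℕ) : relator 1 n =
    FreeGroup.of (Sum.inl (Sum.inl 0)) * FreeGroup.of (Sum.inl (Sum.inr 0)) *
      (FreeGroup.of (Sum.inl (Sum.inl 0)))⁻¹ * (FreeGroup.of (Sum.inl (Sum.inr 0)))⁻¹ *
    (List.ofFn fun j : Fin n => (FreeGroup.of (Sum.inr j) : FreeGroup (Gen 1 n))).prod := by
  unfold relator
  rw [List.ofFn_succ, List.ofFn_zero, List.prod_cons, List.prod_nil, mul_one]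

/-- The relation in the presented group. -/
lemma rel_srf (n : ℕ) :
    (PresentedGroup.of (Sum.inl (Sum.inl 0)) : Srf 1 n) * PresentedGroup.of (Sum.inl (Sum.inr 0)) *
      (PresentedGroup.of (Sum.inl (Sum.inl 0)))⁻¹ * (PresentedGroup.of (Sum.inl (Sum.inr 0)))⁻¹ *
      (List.ofFn fun j : Fin n => (PresentedGroup.of (Sum.inr j) : Srf 1 n)).prod = 1 := by
  have h : PresentedGroup.mk ({relator 1 n} : Set (FreeGroup (Gen 1 n))) (relator 1 n) = 1 :=
    PresentedGroup.one_of_mem (Set.mem_singleton _)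
  have h2 : PresentedGroup.mk ({relator 1 n} : Set (FreeGroup (Gen 1 n)))
      (FreeGroup.of (Sum.inl (Sum.inl 0)) * FreeGroup.of (Sum.inl (Sum.inr 0)) *
      (FreeGroup.of (Sum.inl (Sum.inl 0)))⁻¹ * (FreeGroup.of (Sum.inl (Sum.inr 0)))⁻¹ *
    (List.ofFn fun j : Fin n => (FreeGroup.of (Sum.inr j) : FreeGroup (Gen 1 n))).prod) = 1 := by
    rw [← relator_one n]
    exact h
  rw [map_mul, map_mul, map_mul, map_mul, map_inv, map_inv, map_list_prod, List.map_ofFn] at h2
  exact h2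

lemma prod_single {G : Type} [Group G] {n : ℕ} (i : Fin n) (f : Fin n → G)
    (h : ∀ j, j ≠ i → f j = 1) : (List.ofFn f).prod = f i := by
  induction n with
  | zero => exact i.elim0
  | succ n ih =>
    rw [List.ofFn_succ, List.prod_cons]
    revert h
    refine Fin.cases ?_ (fun i => ?_) i
    · intro h
      have e1 : (List.ofFn fun i : Fin n => f i.succ).prod = 1 := by
        refine List.prod_eq_one fun x hx => ?_
        rw [List.mem_ofFn] at hx
        obtain ⟨j, rfl⟩ := hx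
        exact h _ (Fin.succ_ne_zero j)
      rw [e1, mul_one]
    · intro h
      rw [h 0 (Fin.succ_ne_zero i).symm, one_mul]
      exact ih i (fun j => f j.succ) fun j hj => h _ fun hh => hj (Fin.succ_injective _ hh)

end P1x

theorem pi1_lift {n : ℕ} {Q : Type} [Group Q] [TopologicalSpace Q] [IsTopologicalGroup Q]
    [CompactSpace Q] [TotallyDisconnectedSpace Q] (x y : Q) (f : Fin n → Q)
    (h : x * y * x⁻¹ * y⁻¹ * (List.ofFn f).prod = 1) :
    ∃ p : Pi 1 n →ₜ* Q, p xg = x ∧ p yg = y ∧ ∀ i, p (loop i) = f i := by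
  have hr : ∀ r ∈ ({relator 1 n} : Set (FreeGroup (Gen 1 n))),
      FreeGroup.lift (Sum.elim (Sum.elim (fun _ : Fin 1 => x) (fun _ : Fin 1 => y)) f :
        Gen 1 n → Q) r = 1 := by
    intro r hr
    rw [Set.mem_singleton_iff.1 hr, P1x.relator_one, map_mul, map_mul, map_mul, map_mul, map_inv,
      map_inv, map_list_prod, List.map_ofFn]
    have e : ((FreeGroup.lift (Sum.elim (Sum.elim (fun _ : Fin 1 => x)
        (fun _ : Fin 1 => y)) f : Gen 1 n → Q)) ∘
        fun j : Fin n => (FreeGroup.of (Sum.inr j) : FreeGroup (Gen 1 n))) = f := by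
      funext j
      simp only [Function.comp_apply, FreeGroup.lift_apply_of, Sum.elim_inr]
    rw [e]
    simp only [FreeGroup.lift_apply_of, Sum.elim_inl, Sum.elim_inr]
    exact h
  obtain ⟨p, hp⟩ := exists_lift (PresentedGroup.toGroup hr)
  refine ⟨p, ?_, ?_, fun i => ?_⟩
  · rw [xg, hp, PresentedGroup.toGroup.of]
    rfl
  · rw [yg, hp, PresentedGroup.toGroup.of]
    rfl
  · rw [loop, hp, PresentedGroup.toGroup.of]
    rfl

theorem pi1_rel (n : ℕ) :
    xg * yg * xg⁻¹ * yg⁻¹ * (List.ofFn fun j : Fin n => (loop j : Pi 1 n)).prod = 1 := by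
  have h := congrArg (eta (Srf 1 n)) (P1x.rel_srf n)
  rw [map_mul, map_mul, map_mul, map_mul, map_inv, map_inv, map_list_prod, List.map_ofFn,
    map_one] at h
  exact h

theorem pi1_ext {n : ℕ} {H : Type} [Group H] [TopologicalSpace H] [T2Space H]
    (p q : Pi 1 n →ₜ* H) (hx : p xg = q xg) (hy : p yg = q yg)
    (h : ∀ j, p (loop j) = q (loop j)) : p = q := by
  apply hom_ext
  intro g
  have hh : (p.toMonoidHom.comp (eta (Srf 1 n))) =
      (q.toMonoidHom.comp (eta (Srf 1 n))) := by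
    apply PresentedGroup.ext
    rintro ((i | i) | i)
    · rw [Subsingleton.elim i 0]
      exact hx
    · rw [Subsingleton.elim i 0]
      exact hy
    · exact h i
  exact DFunLike.congr_fun hh g

theorem exists_q {n : ℕ} (i : Fin n) : ∃ q : Pi 1 n →ₜ* F2, IsQ i q := by
  obtain ⟨f, hf⟩ : ∃ f : Fin n → F2, f = fun j => if j = i then LL else 1 := ⟨_, rfl⟩
  have f0 : f i = LL := by rw [hf]; simp
  have f1 : ∀ j, j ≠ i → f j = 1 := fun j hj => by rw [hf]; simp [hj]
  obtain ⟨p, hx, hy, hp⟩ := pi1_lift (Q := F2) X Y f (by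
    rw [P1x.prod_single i f f1, f0, LL]
    group)
  exact ⟨p, hx, hy, by rw [hp, f0], fun j hj => by rw [hp, f1 j hj]⟩

end Pool.Agent.H371.LG.GO
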