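import Pool.Agent.H371.LG3.P1

set_option autoImplicit false

namespace Pool.Agent.H371.LG.GO

open Pool.Agent.H371.GT

variable {m : ℕ}

namespace P2x

theorem ofFn_prod {G : Type} [Group G] {n : ℕ} (f : Fin (n + 1) → G) :
    (List.ofFn f).prod = (List.ofFn fun i : Fin n => f i.castSucc).prod * f (Fin.last n) := by
  rw [List.ofFn_succ', List.concat_eq_append, List.prod_append, List.prod_singleton]

theorem exists_k : ∃ k : F2 →ₜ* Pi 1 (m + 2), k X = loop (Fin.last (m + 1)) ∧ k Y = xg := by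
  obtain ⟨φ, hφ⟩ := exists_lift (Γ := FreeGroup (Fin 2)) (Q := Pi 1 (m + 2))
    (FreeGroup.lift ![(loop (Fin.last (m + 1)) : Pi 1 (m + 2)), xg])
  refine ⟨φ, ?_, ?_⟩
  · rw [← eta_zero, hφ, FreeGroup.lift_apply_of]
    rfl
  · rw [← eta_one, hφ, FreeGroup.lift_apply_of]
    rfl

/-- data of a continuous endomorphism of the pair of pants -/
structure Dat (s : F2 →ₜ* F2) (b : F2) : Prop where
  hY : s Y = b * Y * b⁻¹
  h1 : ev 1 Y b = 1
  hXY : s X * s Y = X * Y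

theorem Dat.hX {s : F2 →ₜ* F2} {b : F2} (h : Dat s b) : s X = X * Y * (b * Y * b⁻¹)⁻¹ := by
  rw [← h.hY, ← h.hXY, mul_inv_cancel_right]

theorem Dat.ev1 {s : F2 →ₜ* F2} {b : F2} (h : Dat s b) (u : F2) :
    ev 1 Y (s u) = ev 1 Y u := by
  have h' : (ev 1 Y).comp s = ev 1 Y := by
    apply hom_ext_XY
    · show ev 1 Y (s X) = ev 1 Y X
      rw [h.hX, map_mul, map_mul, map_inv, map_mul, map_mul, map_inv, ev_X, ev_Y, h.h1]
      group
    · show ev 1 Y (s Y) = ev 1 Y Y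
      rw [h.hY, map_mul, map_mul, map_inv, ev_Y, h.h1]
      group
  exact DFunLike.congr_fun h' u

/-- the endomorphism of the group of type `(1, m + 2)` -/
structure PhiOf (k : F2 →ₜ* Pi 1 (m + 2)) (s : F2 →ₜ* F2) (b : F2)
    (Φ : Pi 1 (m + 2) →ₜ* Pi 1 (m + 2)) : Prop where
  hx : Φ xg = k b * xg * (k b)⁻¹
  hy : Φ yg = yg * (k b)⁻¹
  hl : Φ (loop (Fin.last (m + 1))) = k (s X)
  hj : ∀ j, j ≠ Fin.last (m + 1) → Φ (loop j) = loop j

theorem rel_k {k : F2 →ₜ* Pi 1 (m + 2)} (kX : k X = loop (Fin.last (m + 1))) (kY : k Y = xg)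
    {s : F2 →ₜ* F2} {b : F2} (h : Dat s b) (P : Pi 1 (m + 2))
    (hrel : xg * yg * xg⁻¹ * yg⁻¹ * (P * loop (Fin.last (m + 1))) = 1) :
    (k b * xg * (k b)⁻¹) * (yg * (k b)⁻¹) * (k b * xg * (k b)⁻¹)⁻¹ * (yg * (k b)⁻¹)⁻¹ *
      (P * k (s X)) = 1 := by
  have e1 : yg * xg⁻¹ * yg⁻¹ * P = xg⁻¹ * (loop (Fin.last (m + 1)))⁻¹ := by
    calc yg * xg⁻¹ * yg⁻¹ * P
        = xg⁻¹ * (xg * yg * xg⁻¹ * yg⁻¹ * (P * loop (Fin.last (m + 1)))) *
          (loop (Fin.last (m + 1)))⁻¹ := by group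
      _ = xg⁻¹ * (loop (Fin.last (m + 1)))⁻¹ := by rw [hrel, mul_one]
  have e2 : b * Y * b⁻¹ * (Y⁻¹ * X⁻¹) * s X = 1 := by
    rw [← h.hY, ← mul_inv_rev, ← h.hXY]
    group
  calc (k b * xg * (k b)⁻¹) * (yg * (k b)⁻¹) * (k b * xg * (k b)⁻¹)⁻¹ * (yg * (k b)⁻¹)⁻¹ *
      (P * k (s X)) = k b * xg * (k b)⁻¹ * (yg * xg⁻¹ * yg⁻¹ * P) * k (s X) := by group
    _ = k b * xg * (k b)⁻¹ * (xg⁻¹ * (loop (Fin.last (m + 1)))⁻¹) * k (s X) := by rw [e1]
    _ = k (b * Y * b⁻¹ * (Y⁻¹ * X⁻¹) * s X) := by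
      rw [← kX, ← kY]
      simp only [map_mul, map_inv]
    _ = 1 := by rw [e2, map_one]

theorem exists_Phi {k : F2 →ₜ* Pi 1 (m + 2)} (kX : k X = loop (Fin.last (m + 1)))
    (kY : k Y = xg) {s : F2 →ₜ* F2} {b : F2} (h : Dat s b) :
    ∃ Φ : Pi 1 (m + 2) →ₜ* Pi 1 (m + 2), PhiOf k s b Φ := by
  obtain ⟨Φ, h1, h2, h3⟩ := pi1_lift (n := m + 2) (Q := Pi 1 (m + 2)) (k b * xg * (k b)⁻¹)
    (yg * (k b)⁻¹) (fun j => if j = Fin.last (m + 1) then k (s X) else loop j) (by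
      have hr := pi1_rel (m + 2)
      rw [ofFn_prod] at hr ⊢
      rw [if_pos rfl]
      have e : (fun i : Fin (m + 1) => if i.castSucc = Fin.last (m + 1) then k (s X) else
          (loop i.castSucc : Pi 1 (m + 2))) = fun i => loop i.castSucc := by
        funext i
        rw [if_neg (Fin.castSucc_lt_last i).ne]
      rw [e]
      exact rel_k kX kY h _ hr)
  refine ⟨Φ, h1, h2, ?_, ?_⟩
  · rw [h3, if_pos rfl]
  · intro j hj
    rw [h3, if_neg hj]

theorem Phi_k {k : F2 →ₜ* Pi 1 (m + 2)} (kX : k X = loop (Fin.last (m + 1)))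
    (kY : k Y = xg) {s : F2 →ₜ* F2} {b : F2} (h : Dat s b)
    {Φ : Pi 1 (m + 2) →ₜ* Pi 1 (m + 2)} (hΦ : PhiOf k s b Φ) (u : F2) :
    Φ (k u) = k (s u) := by
  have h' : Φ.comp k = k.comp s := by
    apply hom_ext_XY
    · show Φ (k X) = k (s X)
      rw [kX, hΦ.hl]
    · show Φ (k Y) = k (s Y)
      rw [kY, hΦ.hx, h.hY, map_mul, map_mul, map_inv, kY]
  exact DFunLike.congr_fun h' u

theorem Phi_comp {k : F2 →ₜ* Pi 1 (m + 2)} (kX : k X = loop (Fin.last (m + 1)))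
    (kY : k Y = xg) {s t : F2 →ₜ* F2} {b c : F2} (h : Dat s b)
    {Φ Ψ : Pi 1 (m + 2) →ₜ* Pi 1 (m + 2)} (hΦ : PhiOf k s b Φ) (hΨ : PhiOf k t c Ψ)
    (hst : ∀ u, s (t u) = u) (hcb : s c * b = 1) (u : Pi 1 (m + 2)) : Φ (Ψ u) = u := by
  have e : k (s c) * k b = 1 := by rw [← map_mul, hcb, map_one]
  have h' : Φ.comp Ψ = ContinuousMonoidHom.id (Pi 1 (m + 2)) := by
    apply pi1_ext
    · show Φ (Ψ xg) = xg
      rw [hΨ.hx, map_mul, map_mul, map_inv, Phi_k kX kY h hΦ, hΦ.hx]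
      calc k (s c) * (k b * xg * (k b)⁻¹) * (k (s c))⁻¹
          = (k (s c) * k b) * xg * (k (s c) * k b)⁻¹ := by group
        _ = xg := by rw [e, inv_one, mul_one, one_mul]
    · show Φ (Ψ yg) = yg
      rw [hΨ.hy, map_mul, map_inv, Phi_k kX kY h hΦ, hΦ.hy]
      calc yg * (k b)⁻¹ * (k (s c))⁻¹ = yg * (k (s c) * k b)⁻¹ := by group
        _ = yg := by rw [e, inv_one, mul_one]
    · intro j
      show Φ (Ψ (loop j)) = loop j
      by_cases hj : j = Fin.last (m + 1)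
      · rw [hj, hΨ.hl, Phi_k kX kY h hΦ, hst, kX]
      · rw [hΨ.hj j hj, hΦ.hj j hj]
  exact DFunLike.congr_fun h' u

/-- the endomorphism of the free group of rank two -/
noncomputable def psi (b : F2) : F2 →ₜ* F2 :=
  ev (ev LL X b * X * (ev LL X b)⁻¹) (Y * (ev LL X b)⁻¹)

theorem psi_X (b : F2) : psi b X = ev LL X b * X * (ev LL X b)⁻¹ := ev_X _ _

theorem psi_Y (b : F2) : psi b Y = Y * (ev LL X b)⁻¹ := ev_Y _ _

theorem psi_j {s : F2 →ₜ* F2} {b : F2} (h : Dat s b) (u : F2) :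
    psi b (ev LL X u) = ev LL X (s u) := by
  have h' : (psi b).comp (ev LL X) = (ev LL X).comp s := by
    apply hom_ext_XY
    · show psi b (ev LL X X) = ev LL X (s X)
      rw [ev_X, h.hX, map_mul, map_mul, map_inv, map_mul, map_mul, map_inv, ev_X, ev_Y]
      show psi b (Y * X * Y⁻¹ * X⁻¹) = Y * X * Y⁻¹ * X⁻¹ * X * _
      rw [map_mul, map_mul, map_mul, map_inv, map_inv, psi_X, psi_Y]
      group
    · show psi b (ev LL X Y) = ev LL X (s Y)
      rw [ev_Y, h.hY, map_mul, map_mul, map_inv, ev_Y, psi_X]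
  exact DFunLike.congr_fun h' u

theorem psi_comp {s : F2 →ₜ* F2} {b c : F2} (h : Dat s b) (hcb : s c * b = 1) (u : F2) :
    psi b (psi c u) = u := by
  have e : ev LL X (s c) * ev LL X b = 1 := by rw [← map_mul, hcb, map_one]
  have h' : (psi b).comp (psi c) = ContinuousMonoidHom.id F2 := by
    apply hom_ext_XY
    · show psi b (psi c X) = X
      rw [psi_X, map_mul, map_mul, map_inv, psi_j h, psi_X]
      calc ev LL X (s c) * (ev LL X b * X * (ev LL X b)⁻¹) * (ev LL X (s c))⁻¹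
          = (ev LL X (s c) * ev LL X b) * X * (ev LL X (s c) * ev LL X b)⁻¹ := by group
        _ = X := by rw [e, inv_one, mul_one, one_mul]
    · show psi b (psi c Y) = Y
      rw [psi_Y, map_mul, map_inv, psi_j h, psi_Y]
      calc Y * (ev LL X b)⁻¹ * (ev LL X (s c))⁻¹
          = Y * (ev LL X (s c) * ev LL X b)⁻¹ := by group
        _ = Y := by rw [e, inv_one, mul_one]
  exact DFunLike.congr_fun h' u

/-- the element `b` -/
theorem exists_b {σ : MulAut F2} {b0 : F2} (hb0 : σ Y = b0 * Y * b0⁻¹) :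
    ∃ b, σ Y = b * Y * b⁻¹ ∧ ev 1 Y b = 1 := by
  have hcomm : ∀ u, Y * ev 1 Y u * Y⁻¹ = ev 1 Y u := by
    have h' : (G1x.cj Y).comp (ev 1 Y) = ev 1 Y := by
      apply hom_ext_XY
      · show G1x.cj Y (ev 1 Y X) = ev 1 Y X
        rw [ev_X, map_one]
      · show G1x.cj Y (ev 1 Y Y) = ev 1 Y Y
        rw [ev_Y, G1x.cj_apply]
        group
    intro u
    exact DFunLike.congr_fun h' u
  have hidem : ∀ u, ev 1 Y (ev 1 Y u) = ev 1 Y u := by
    intro u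
    rw [G1x.ev_comp, map_one, ev_Y]
  refine ⟨b0 * (ev 1 Y b0)⁻¹, ?_, ?_⟩
  · have h1 := hcomm b0
    have h2 : (ev 1 Y b0)⁻¹ * Y * ev 1 Y b0 = Y := by
      calc (ev 1 Y b0)⁻¹ * Y * ev 1 Y b0
          = (ev 1 Y b0)⁻¹ * (Y * ev 1 Y b0 * Y⁻¹) * Y := by group
        _ = Y := by rw [h1, inv_mul_cancel, one_mul]
    calc σ Y = b0 * Y * b0⁻¹ := hb0
      _ = b0 * ((ev 1 Y b0)⁻¹ * Y * ev 1 Y b0) * b0⁻¹ := by rw [h2]
      _ = _ := by group
  · rw [map_mul, map_inv, hidem, mul_inv_cancel]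

end P2x

open P2x in
theorem exists_ext1 (σ : MulAut F2) (hσ : Exotic σ) :
    ∃ (b : F2) (ψ : MulAut F2) (φ : MulAut (Pi 1 (m + 2))), IsPsi σ b ψ ∧ Continuous φ ∧
      (∃ a, φ (loop (Fin.last (m + 1))) = a * loop (Fin.last (m + 1)) * a⁻¹) ∧
      (∀ j, j ≠ Fin.last (m + 1) → φ (loop j) = loop j) ∧
      (∀ q, IsQ (Fin.last (m + 1)) q → ∀ u, q (φ u) = ψ (q u)) ∧
      ∀ i, i ≠ Fin.last (m + 1) → ∀ q, IsQ i q → ∀ u, q (φ u) = q u := by
  obtain ⟨hc, ⟨a, ha⟩, ⟨b0, hb0⟩, hXY, -⟩ := hσ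
  obtain ⟨b, hb, hb1⟩ := exists_b hb0
  obtain ⟨k, kX, kY⟩ := exists_k (m := m)
  have hc' : Continuous (σ.symm : F2 → F2) :=
    Continuous.continuous_symm_of_equiv_compact_to_t2 (f := σ.toEquiv) hc
  obtain ⟨S, hS⟩ : ∃ S : F2 →ₜ* F2, ∀ u, S u = σ u := ⟨⟨σ.toMonoidHom, hc⟩, fun _ => rfl⟩
  obtain ⟨T, hT⟩ : ∃ T : F2 →ₜ* F2, ∀ u, T u = σ.symm u :=
    ⟨⟨σ.symm.toMonoidHom, hc'⟩, fun _ => rfl⟩
  have hST : ∀ u, S (T u) = u := fun u => by rw [hS, hT, MulEquiv.apply_symm_apply]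
  have hTS : ∀ u, T (S u) = u := fun u => by rw [hS, hT, MulEquiv.symm_apply_apply]
  have dS : Dat S b := by
    refine ⟨by rw [hS, hb], hb1, ?_⟩
    rw [← map_mul, hS, hXY]
  obtain ⟨c, hcdef⟩ : ∃ c, c = (T b)⁻¹ := ⟨_, rfl⟩
  have dT : Dat T c := by
    refine ⟨?_, ?_, ?_⟩
    · have h1 : T (S Y) = T b * T Y * (T b)⁻¹ := by
        rw [dS.hY, map_mul, map_mul, map_inv]
      rw [hTS] at h1
      rw [hcdef]
      calc T Y = (T b)⁻¹ * (T b * T Y * (T b)⁻¹) * T b := by group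
        _ = (T b)⁻¹ * Y * ((T b)⁻¹)⁻¹ := by rw [← h1, inv_inv]
    · have h1 : ev 1 Y (T b) = 1 := by
        rw [← dS.ev1 (T b), hST, hb1]
      rw [hcdef, map_inv, h1, inv_one]
    · rw [← map_mul]
      have h1 : T (S X * S Y) = X * Y := by rw [← map_mul, hTS]
      rw [dS.hXY] at h1
      exact h1
  have hSc : S c * b = 1 := by rw [hcdef, map_inv, hST, inv_mul_cancel]
  have hTb : T b * c = 1 := by rw [hcdef, mul_inv_cancel]
  obtain ⟨Φ, hΦ⟩ := exists_Phi kX kY dS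
  obtain ⟨Ψ, hΨ⟩ := exists_Phi kX kY dT
  let φ : MulAut (Pi 1 (m + 2)) :=
    { toFun := Φ
      invFun := Ψ
      left_inv := Phi_comp kX kY dT hΨ hΦ hTS hTb
      right_inv := Phi_comp kX kY dS hΦ hΨ hST hSc
      map_mul' := map_mul Φ }
  let ψ : MulAut F2 :=
    { toFun := psi b
      invFun := psi c
      left_inv := psi_comp dT hTb
      right_inv := psi_comp dS hSc
      map_mul' := map_mul (psi b) }
  refine ⟨b, ψ, φ, ⟨(psi b).continuous_toFun, hb, hb1, psi_X b, psi_Y b⟩, Φ.continuous_toFun,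
    ⟨k a, ?_⟩, hΦ.hj, ?_, ?_⟩
  · show Φ (loop (Fin.last (m + 1))) = _
    rw [hΦ.hl, hS, ha, map_mul, map_mul, map_inv, kX]
  · rintro q ⟨qx, qy, ql, qj⟩ u
    show q (Φ u) = psi b (q u)
    have hqk : ∀ u, q (k u) = ev LL X u := by
      have h' : q.comp k = ev LL X := by
        apply hom_ext_XY
        · show q (k X) = ev LL X X
          rw [kX, ql, ev_X]
        · show q (k Y) = ev LL X Y
          rw [kY, qx, ev_Y]
      exact fun u => DFunLike.congr_fun h' u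
    have h' : q.comp Φ = (psi b).comp q := by
      apply pi1_ext
      · show q (Φ xg) = psi b (q xg)
        rw [hΦ.hx, map_mul, map_mul, map_inv, hqk, qx, psi_X]
      · show q (Φ yg) = psi b (q yg)
        rw [hΦ.hy, map_mul, map_inv, hqk, qy, psi_Y]
      · intro j
        show q (Φ (loop j)) = psi b (q (loop j))
        by_cases hj : j = Fin.last (m + 1)
        · rw [hj, hΦ.hl, hqk, ql, ← psi_j dS, ev_X]
        · rw [hΦ.hj j hj, qj j hj, map_one]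
    exact DFunLike.congr_fun h' u
  · rintro i hi q ⟨qx, qy, ql, qj⟩ u
    show q (Φ u) = q u
    have hql : q (loop (Fin.last (m + 1))) = 1 := qj _ (Ne.symm hi)
    have hqk : ∀ u, q (k u) = ev X X (ev 1 Y u) := by
      have h' : q.comp k = (ev X X).comp (ev 1 Y) := by
        apply hom_ext_XY
        · show q (k X) = ev X X (ev 1 Y X)
          rw [kX, hql, ev_X, map_one]
        · show q (k Y) = ev X X (ev 1 Y Y)
          rw [kY, qx, ev_Y, ev_Y]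
      exact fun u => DFunLike.congr_fun h' u
    have hqb : q (k b) = 1 := by rw [hqk, hb1, map_one]
    have h' : q.comp Φ = q := by
      apply pi1_ext
      · show q (Φ xg) = q xg
        rw [hΦ.hx, map_mul, map_mul, map_inv, hqb, inv_one, mul_one, one_mul]
      · show q (Φ yg) = q yg
        rw [hΦ.hy, map_mul, map_inv, hqb, inv_one, mul_one]
      · intro j
        show q (Φ (loop j)) = q (loop j)
        by_cases hj : j = Fin.last (m + 1)
        · rw [hj, hΦ.hl, hqk, dS.ev1, ev_X, map_one, hql]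
        · rw [hΦ.hj j hj]
    exact DFunLike.congr_fun h' u

end Pool.Agent.H371.LG.GO
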