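import Pool.Agent.H371.LG3.P1

set_option autoImplicit false

namespace Pool.Agent.H371.LG.GO

open Pool.Agent.H371.GT

variable {m : ℕ}

namespace P4x

/-- the images of the loops -/
def fun4 (m : ℕ) : Fin (m + 3) → Multiplicative (Fin (m + 2) → ZMod 3) :=
  Fin.lastCases (motive := fun _ => Multiplicative (Fin (m + 2) → ZMod 3))
    (Multiplicative.ofAdd fun _ => -1) (fun i => Multiplicative.ofAdd (Pi.single i 1))

lemma fun4_castSucc (i : Fin (m + 2)) :
    fun4 m i.castSucc = Multiplicative.ofAdd (Pi.single i 1) := by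
  unfold fun4
  exact Fin.lastCases_castSucc _

lemma fun4_last : fun4 m (Fin.last (m + 2)) = Multiplicative.ofAdd fun _ => -1 := by
  unfold fun4
  exact Fin.lastCases_last

lemma prod_fun4 : (List.ofFn (fun4 m)).prod = 1 := by
  rw [List.prod_ofFn, Fin.prod_univ_castSucc]
  simp only [fun4_castSucc, fun4_last]
  rw [← ofAdd_sum, ← ofAdd_add, ← ofAdd_zero]
  apply congrArg
  have h : (∑ i : Fin (m + 2), (Pi.single i 1 : Fin (m + 2) → ZMod 3)) = 1 :=
    Finset.univ_sum_single (1 : Fin (m + 2) → ZMod 3)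
  rw [h]
  funext j
  show (1 : ZMod 3) + -1 = 0
  decide




/-- the images of the loops in the abelianization modulo three -/
def v (m : ℕ) : Fin (m + 3) → (Fin (m + 2) → ZMod 3) :=
  Fin.lastCases (fun _ => -1) (fun i => Pi.single i 1)

theorem v_last : v m (Fin.last (m + 2)) = fun _ => -1 := by
  unfold v
  rw [Fin.lastCases_last]

theorem v_cast (i : Fin (m + 2)) : v m i.castSucc = Pi.single i 1 := by
  unfold v
  rw [Fin.lastCases_castSucc]

theorem ex_ne (a : Fin (m + 2)) : ∃ t : Fin (m + 2), t ≠ a := by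
  by_cases h : a = 0
  · refine ⟨1, ?_⟩
    rw [h]
    intro h1
    have h2 := congrArg Fin.val h1
    simp at h2
  · exact ⟨0, fun h1 => h h1.symm⟩

theorem v_dec (i j : Fin (m + 3)) (k : ℕ) (hk : ((k : ℕ) : ZMod 3) ≠ 0)
    (h : v m i = k • v m j) : j = i ∧ (i ≠ Fin.last (m + 2) → ((k : ℕ) : ZMod 3) = 1) := by
  have hc : ∀ t, v m i t = ((k : ℕ) : ZMod 3) * v m j t := by
    intro t
    rw [h, Pi.smul_apply, nsmul_eq_mul]
  have hm : (-1 : ZMod 3) ≠ 0 := by decide
  induction i using Fin.lastCases with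
  | last =>
    induction j using Fin.lastCases with
    | last => exact ⟨rfl, fun h => absurd rfl h⟩
    | cast b =>
      exfalso
      obtain ⟨t, ht⟩ := ex_ne b
      have h1 := hc t
      rw [v_last, v_cast, Pi.single_eq_of_ne ht, mul_zero] at h1
      exact hm h1
  | cast a =>
    induction j using Fin.lastCases with
    | last =>
      exfalso
      obtain ⟨t, ht⟩ := ex_ne a
      have h1 := hc t
      rw [v_last, v_cast, Pi.single_eq_of_ne ht, mul_neg, mul_one, zero_eq_neg] at h1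
      exact hk h1
    | cast b =>
      have h1 := hc a
      rw [v_cast, v_cast, Pi.single_eq_same] at h1
      by_cases hab : a = b
      · subst hab
        rw [Pi.single_eq_same, mul_one] at h1
        exact ⟨rfl, fun _ => h1.symm⟩
      · exfalso
        rw [Pi.single_eq_of_ne hab, mul_zero] at h1
        exact one_ne_zero h1

theorem cube (x : Multiplicative (Fin (m + 2) → ZMod 3)) : x ^ (((3 : ℕ+) : ℕ)) = 1 := by
  have h : ∀ x : ZMod 3, (3 : ℕ) • x = 0 := by decide
  have h1 : Multiplicative.toAdd (x ^ (3 : ℕ)) = 0 := by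
    rw [toAdd_pow]
    funext t
    exact h _
  exact h1

theorem dec3 : ∀ k : Fin 3, (((k : Fin 3) : ℕ) : ZMod 3) = 1 → k = 1 := by decide


end P4x

theorem exists_kap1 : ∃ κ : Pi 1 (m + 3) →* Multiplicative (Fin (m + 2) → ZMod 3), IsKap1 κ := by
  let tQ : TopologicalSpace (Multiplicative (Fin (m + 2) → ZMod 3)) := ⊥
  have dQ : DiscreteTopology (Multiplicative (Fin (m + 2) → ZMod 3)) := ⟨rfl⟩
  have fQ : Finite (Multiplicative (Fin (m + 2) → ZMod 3)) :=
    inferInstanceAs (Finite (Fin (m + 2) → ZMod 3))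
  obtain ⟨p, -, -, hp⟩ := pi1_lift (Q := Multiplicative (Fin (m + 2) → ZMod 3)) 1 1 (P4x.fun4 m)
    (by rw [P4x.prod_fun4, inv_one, mul_one, mul_one, mul_one, mul_one])
  refine ⟨p.toMonoidHom, ?_, fun i => (hp i.castSucc).trans (P4x.fun4_castSucc i),
    (hp (Fin.last (m + 2))).trans P4x.fun4_last⟩
  have h1 : (p.toMonoidHom.ker : Set (Pi 1 (m + 3))) =
      (fun x => p x) ⁻¹' {(1 : Multiplicative (Fin (m + 2) → ZMod 3))} := by
    ext x
    rfl
  rw [h1]
  exact (isOpen_discrete _).preimage p.continuous_toFun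

open P4x in
theorem perm_triv1 (κ : Pi 1 (m + 3) →* Multiplicative (Fin (m + 2) → ZMod 3)) (hκ : IsKap1 κ)
    (d : MulAut (Pi 1 (m + 3))) (l : Zhatˣ) (τ : Equiv.Perm (Fin (m + 3)))
    (h : LacAt (l : Zhat) τ d) (h3 : ∀ i, κ (d (loop i)) = κ (loop i)) :
    ∀ i, τ i = i := by
  obtain ⟨hker, k0, k1⟩ := hκ
  have hv : ∀ i, κ (loop i) = Multiplicative.ofAdd (v m i) := by
    intro i
    induction i using Fin.lastCases with
    | last => rw [k1, v_last]
    | cast a => rw [k0, v_cast]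
  have hlt : res (l : Zhat) 3 < 3 := res_lt (l : Zhat) 3
  have hne : res (l : Zhat) 3 ≠ 0 := by
    intro h0
    have h1 := res_unit_coprime l 3
    rw [h0, Nat.coprime_zero_left] at h1
    exact absurd h1 (by decide)
  have key : ∀ i, v m i = (res (l : Zhat) 3) • v m (τ i) := by
    intro i
    obtain ⟨a, ha⟩ := h i
    have h4 := h3 i
    rw [ha, map_mul, map_mul, map_inv, mul_comm (κ a), mul_assoc, mul_inv_cancel, mul_one,
      fin_ppow κ hker (loop (τ i)) (l : Zhat) 3 (cube _), hv, hv, ← ofAdd_nsmul] at h4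
    exact (Multiplicative.ofAdd.injective h4).symm
  have hk : ((res (l : Zhat) 3 : ℕ) : ZMod 3) ≠ 0 := by
    intro h0
    rw [ZMod.natCast_eq_zero_iff] at h0
    exact hne (Nat.eq_zero_of_dvd_of_lt h0 hlt)
  have h5 : ∀ i, τ i = i ∧ (i ≠ Fin.last (m + 2) → ((res (l : Zhat) 3 : ℕ) : ZMod 3) = 1) :=
    fun i => v_dec i (τ i) _ hk (key i)
  exact fun i => (h5 i).1

end Pool.Agent.H371.LG.GO
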