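import Pool.Agent.H371.LG2.Pub
import Pool.Agent.H371.LG3.Inf

/-!
# The groups `T⁺` in genus one

The definitions of the statement are those of `Pool.Agent.H371.LG2.Pub`.
-/

set_option autoImplicit false

namespace Pool.Agent.H371.LG.Pub

open Pool.Agent.H371.GT

variable {n : ℕ}

/-- Type `(1, n)`, `n ≥ 2`: some element of `Aut_lac(π)` has no positive power normalizing
`T⁺(π_0)`, and there are infinitely many discretifications with pairwise different groups `T⁺`. -/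
theorem genus_one (hn : 2 ≤ n) : (∃ φ ∈ AutLac 1 n, ∀ k : ℕ, 0 < k →
      ∃ ψ ∈ TPlus (std 1 n), φ ^ k * ψ * (φ ^ k)⁻¹ ∉ TPlus (std 1 n)) ∧
    ∃ D : ℕ → Subgroup (Pi 1 n), D 0 = std 1 n ∧ (∀ i, IsDisc (D i)) ∧
      Function.Injective fun i => TPlus (D i) := by
  obtain ⟨m, rfl⟩ : ∃ m, n = m + 2 := ⟨n - 2, by omega⟩
  obtain ⟨φ, hφ, h⟩ := GO.main m
  refine ⟨⟨φ, hφ, fun k hk => ?_⟩, ?_⟩
  · obtain ⟨ψ, h1, h2⟩ := h k hk
    rw [tPlus_eq]
    exact ⟨ψ, h1, h2⟩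
  · obtain ⟨D, h0, h1, h2⟩ := GO.inf_many hφ h
    refine ⟨D, h0, h1, fun i j hij => h2 ?_⟩
    show LG.TPlus (D i) = LG.TPlus (D j)
    rw [← tPlus_eq, ← tPlus_eq]
    exact hij

end Pool.Agent.H371.LG.Pub
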