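import Pool.Agent.H371.LG3.Defs
import Pool.Graph.R_pool_sql_team_seeded_3997aac3.Q171.AS.Gen3
import Pool.Graph.R_pool_sql_team_22c7b01f.H23.Sanov

set_option autoImplicit false

namespace Pool.Agent.H371.LG.GO

open Pool.Agent.H371.GT

variable {m : ℕ}

namespace S1x

open Pool.Agent.Q171.AS (FF LL sA tA Φ Φ_0 Φ_1 mkA_X mkA_Y)
open Pool.Agent.H23.Sanov (gens mA mB mAi mBi mul_ent inj mB_inv)

/-- exponent sums -/
def eh (i : Fin 2) : FreeGroup (Fin 2) →* Multiplicative ℤ :=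
  FreeGroup.lift fun j => Multiplicative.ofAdd (if i = j then 1 else 0)

/-- exponent sums as integers -/
def es (i : Fin 2) (w : FreeGroup (Fin 2)) : ℤ := Multiplicative.toAdd (eh i w)

theorem es_one (i : Fin 2) : es i 1 = 0 := by simp [es]
theorem es_mul (i : Fin 2) (v w : FreeGroup (Fin 2)) : es i (v * w) = es i v + es i w := by simp [es]
theorem es_inv (i : Fin 2) (v : FreeGroup (Fin 2)) : es i v⁻¹ = -es i v := by simp [es]
theorem es_of (i j : Fin 2) : es i (FreeGroup.of j) = if i = j then 1 else 0 := by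
  simp [es, eh]

theorem es_of_ab (i : Fin 2) (v w : FreeGroup (Fin 2)) (h : Abelianization.of v = Abelianization.of w) :
    es i v = es i w := by
  have h1 : ∀ x : FreeGroup (Fin 2), eh i x = Abelianization.lift (eh i) (Abelianization.of x) := by
    intro x
    rw [Abelianization.lift_apply_of]
  unfold es
  rw [h1 v, h1 w, h]

/-- the matrix of an endomorphism on the exponent sums -/
theorem mat (φ : FreeGroup (Fin 2) →* FreeGroup (Fin 2)) (g : Fin 2 → Fin 2 → ℤ)
    (h : ∀ i j, es i (φ (FreeGroup.of j)) = g i j) (w : FreeGroup (Fin 2)) (i : Fin 2) :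
    es i (φ w) = g i 0 * es 0 w + g i 1 * es 1 w := by
  induction w using FreeGroup.induction_on with
  | C1 => simp [es_one]
  | of j =>
    rw [h i j, es_of, es_of]
    fin_cases j <;> simp
  | inv_of j hj => rw [map_inv, es_inv, es_inv, es_inv, hj]; ring
  | mul x y hx hy => rw [map_mul, es_mul, es_mul, es_mul, hx, hy]; ring

/-- the inversion of the second generator -/
def nu : FreeGroup (Fin 2) →* FreeGroup (Fin 2) :=
  FreeGroup.lift ![FreeGroup.of 0, (FreeGroup.of 1)⁻¹]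

theorem nu_nu (l : FreeGroup (Fin 2)) : nu (nu l) = l := by
  have h : nu.comp nu = MonoidHom.id _ := by
    apply Pool.Agent.Q171.AS.ext2 <;> simp [nu]
  exact DFunLike.congr_fun h l

/-- the matrix of a word -/
noncomputable def gl (l : FreeGroup (Fin 2)) : Matrix.SpecialLinearGroup (Fin 2) ℤ :=
  FreeGroup.lift gens (nu l)

theorem gl_mul (x y : FreeGroup (Fin 2)) : gl (x * y) = gl x * gl y := by simp [gl]

theorem gl_0 : gl (FreeGroup.of 0) = mA := by simp [gl, nu, gens]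
theorem gl_1 : gl (FreeGroup.of 1) = mBi := by simp [gl, nu, gens, mB_inv]

/-- the property of a word -/
def PP (l : FreeGroup (Fin 2)) : Prop := ∀ (w : FreeGroup (Fin 2)) (i : Fin 2),
  es i (Φ l w) = gl l i 0 * es 0 w + gl l i 1 * es 1 w

theorem PP_mul {x y : FreeGroup (Fin 2)} (hx : PP x) (hy : PP y) : PP (x * y) := by
  intro w i
  rw [map_mul, MulAut.mul_apply, hx, hy, hy, gl_mul, mul_ent, mul_ent]
  ring

theorem PP_one : PP 1 := by
  intro w i
  rw [map_one, MulAut.one_apply]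
  have : gl 1 = 1 := by simp [gl]
  rw [this]
  fin_cases i <;> simp

theorem PP_of_inv {x : FreeGroup (Fin 2)} (hx : PP x) : PP x⁻¹ := by
  intro w i
  have h1 : ∀ k : Fin 2, es k w = gl x k 0 * es 0 (Φ x⁻¹ w) + gl x k 1 * es 1 (Φ x⁻¹ w) := by
    intro k
    rw [← hx (Φ x⁻¹ w) k]
    congr 1
    rw [map_inv, MulAut.apply_inv_self]
  have h2 : gl x⁻¹ * gl x = 1 := by rw [← gl_mul]; simp [gl]
  have h3 : ∀ k : Fin 2, gl x⁻¹ i 0 * gl x 0 k + gl x⁻¹ i 1 * gl x 1 k =
      (1 : Matrix.SpecialLinearGroup (Fin 2) ℤ) i k := by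
    intro k
    rw [← h2, mul_ent]
  rw [h1 0, h1 1]
  have h40 := h3 0
  have h41 := h3 1
  have h5 : gl x⁻¹ i 0 * (gl x 0 0 * es 0 (Φ x⁻¹ w) + gl x 0 1 * es 1 (Φ x⁻¹ w)) +
      gl x⁻¹ i 1 * (gl x 1 0 * es 0 (Φ x⁻¹ w) + gl x 1 1 * es 1 (Φ x⁻¹ w)) =
      (gl x⁻¹ i 0 * gl x 0 0 + gl x⁻¹ i 1 * gl x 1 0) * es 0 (Φ x⁻¹ w) +
      (gl x⁻¹ i 0 * gl x 0 1 + gl x⁻¹ i 1 * gl x 1 1) * es 1 (Φ x⁻¹ w) := by ring
  rw [h5, h40, h41]
  fin_cases i <;> simp

theorem PP_0 : PP (FreeGroup.of 0) := by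
  intro w i
  rw [gl_0, Φ_0]
  refine mat sA.toMonoidHom (fun i j => mA i j) ?_ w i
  intro i j
  fin_cases j
  · show es i (sA (FreeGroup.of 0)) = _
    have : sA (FreeGroup.of 0) = FreeGroup.of 0 := mkA_X _ _ _ _ _ _ _ _
    rw [this, es_of]
    fin_cases i <;> simp [mA]
  · show es i (sA (FreeGroup.of 1)) = _
    have : sA (FreeGroup.of 1) = FreeGroup.of 0 * FreeGroup.of 0 * FreeGroup.of 1 :=
      mkA_Y _ _ _ _ _ _ _ _
    rw [this, es_mul, es_mul, es_of, es_of]
    fin_cases i <;> simp [mA]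

theorem PP_1 : PP (FreeGroup.of 1) := by
  intro w i
  rw [gl_1, Φ_1]
  refine mat tA.toMonoidHom (fun i j => mBi i j) ?_ w i
  intro i j
  fin_cases j
  · show es i (tA (FreeGroup.of 0)) = _
    have : tA (FreeGroup.of 0) = FreeGroup.of 0 * (FreeGroup.of 1)⁻¹ * (FreeGroup.of 1)⁻¹ :=
      mkA_X _ _ _ _ _ _ _ _
    rw [this, es_mul, es_mul, es_inv, es_of, es_of]
    fin_cases i <;> simp [mBi]
  · show es i (tA (FreeGroup.of 1)) = _
    have : tA (FreeGroup.of 1) = FreeGroup.of 1 := mkA_Y _ _ _ _ _ _ _ _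
    rw [this, es_of]
    fin_cases i <;> simp [mBi]

theorem PP_all (l : FreeGroup (Fin 2)) : PP l := by
  induction l using FreeGroup.induction_on with
  | C1 => exact PP_one
  | of j =>
    fin_cases j
    · exact PP_0
    · exact PP_1
  | inv_of j hj => exact PP_of_inv hj
  | mul x y hx hy => exact PP_mul hx hy

end S1x

open S1x in
theorem sanov (l : FreeGroup (Fin 2))
    (h : ∀ w : FreeGroup (Fin 2), Abelianization.of (Pool.Agent.Q171.AS.Φ l w) = Abelianization.of w) :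
    l = 1 := by
  have h1 : gl l = 1 := by
    ext i j
    have h2 := PP_all l (FreeGroup.of j) i
    rw [es_of_ab i _ _ (h (FreeGroup.of j)), es_of, es_of, es_of] at h2
    fin_cases i <;> fin_cases j <;> simp at h2 ⊢ <;> omega
  have h2 : nu l = 1 := by
    apply Pool.Agent.H23.Sanov.inj
    rw [map_one]
    exact h1
  rw [← nu_nu l, h2, map_one]

end Pool.Agent.H371.LG.GO
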