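import Pool.Agent.H371.LG3.S1
import Pool.Graph.R_pool_sql_team_seeded_3997aac3.Q171.AS.Asada

set_option autoImplicit false

namespace Pool.Agent.H371.LG.GO

open Pool.Agent.H371.GT

variable {m : ℕ}

namespace S2x

open Pool.Agent.Q171.AS (FF LL Φ e4 ex4 e4_00 e4_01 e4_10 e4_11)

/-- the action on the homomorphisms to the cyclic group of order four -/
def act4 : MulAut FF →* Equiv.Perm (FF →* Multiplicative (ZMod 4)) where
  toFun α :=
    { toFun := fun f => f.comp (α⁻¹ : MulAut FF).toMonoidHom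
      invFun := fun f => f.comp α.toMonoidHom
      left_inv := fun f => by
        ext w
        change (f ((α⁻¹ : MulAut FF) (α _))).toAdd = (f _).toAdd
        rw [MulAut.inv_apply_self]
      right_inv := fun f => by
        ext w
        change (f (α ((α⁻¹ : MulAut FF) _))).toAdd = (f _).toAdd
        rw [MulAut.apply_inv_self] }
  map_one' := by
    apply Equiv.ext
    intro f
    ext w
    rfl
  map_mul' α β := by
    apply Equiv.ext
    intro f
    ext w
    change (f (((α * β)⁻¹ : MulAut FF) _)).toAdd = (f ((β⁻¹ : MulAut FF) ((α⁻¹ : MulAut FF) _))).toAdd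
    rw [mul_inv_rev, MulAut.mul_apply]

theorem act4_ker {α : MulAut FF} (h : α ∈ act4.ker) (f : FF →* Multiplicative (ZMod 4)) (w : FF) :
    f (α w) = f w := by
  have h1 : act4 α = 1 := h
  have h2 := DFunLike.congr_fun (Equiv.ext_iff.1 h1 f) (α w)
  have h3 : f ((α⁻¹ : MulAut FF) (α w)) = f (α w) := h2
  rw [MulAut.inv_apply_self] at h3
  exact h3.symm

theorem finite_hom (Q : Type) [Group Q] [Finite Q] : Finite (FreeGroup (Fin 2) →* Q) :=
  Finite.of_equiv (Fin 2 → Q) FreeGroup.lift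

instance conj_normal : (MulAut.conj : FF →* MulAut FF).range.Normal := by
  refine ⟨?_⟩
  rintro _ ⟨r, rfl⟩ g
  refine ⟨g r, ?_⟩
  apply MulEquiv.ext
  intro w
  change g r * w * (g r)⁻¹ = g (r * (g⁻¹ : MulAut FF) w * r⁻¹)
  rw [map_mul, map_mul, map_inv, MulAut.apply_inv_self]

theorem range_fi :
    ((QuotientGroup.mk' (MulAut.conj : FF →* MulAut FF).range).comp Φ).range.FiniteIndex := by
  have i1 : Finite (FF →* Multiplicative (ZMod 4)) := finite_hom _
  have i2 : Finite (Equiv.Perm (FF →* Multiplicative (ZMod 4))) := inferInstance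
  have i3 : act4.ker.FiniteIndex := Subgroup.finiteIndex_ker act4
  have i4 : (act4.ker.map (QuotientGroup.mk' (MulAut.conj : FF →* MulAut FF).range)).FiniteIndex := by
    refine ⟨?_⟩
    rw [Subgroup.index_map]
    refine mul_ne_zero ?_ ?_
    · have i5 : (act4.ker ⊔ (QuotientGroup.mk' (MulAut.conj : FF →* MulAut FF).range).ker).FiniteIndex :=
        Subgroup.finiteIndex_of_le le_sup_left
      exact i5.index_ne_zero
    · rw [MonoidHom.range_eq_top.2 (QuotientGroup.mk'_surjective _), Subgroup.index_top]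
      exact one_ne_zero
  refine Subgroup.finiteIndex_of_le (H := act4.ker.map
    (QuotientGroup.mk' (MulAut.conj : FF →* MulAut FF).range)) ?_
  rintro _ ⟨α, hα, rfl⟩
  have a1 := act4_ker hα
  obtain ⟨r, l, hrl⟩ := Pool.Agent.Q171.AS.gen α
    (by change (ex4 0 (α Pool.Agent.Q171.AS.X)).toAdd = 1; rw [a1]; exact e4_00)
    (by change (ex4 0 (α Pool.Agent.Q171.AS.Y)).toAdd = 0; rw [a1]; exact e4_01)
    (by change (ex4 1 (α Pool.Agent.Q171.AS.X)).toAdd = 0; rw [a1]; exact e4_10)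
    (by change (ex4 1 (α Pool.Agent.Q171.AS.Y)).toAdd = 1; rw [a1]; exact e4_11)
  refine ⟨l, ?_⟩
  rw [hrl, map_mul]
  have h1 : QuotientGroup.mk' (MulAut.conj : FF →* MulAut FF).range (MulAut.conj r) = 1 := by
    rw [QuotientGroup.mk'_apply, QuotientGroup.eq_one_iff]
    exact ⟨r, rfl⟩
  rw [h1, one_mul]
  rfl

theorem mm_fi (M : Subgroup (FreeGroup (Fin 2))) [M.FiniteIndex] :
    ((M.map ((QuotientGroup.mk' (MulAut.conj : FF →* MulAut FF).range).comp Φ)).comap
      (QuotientGroup.mk' (MulAut.conj : FF →* MulAut FF).range)).FiniteIndex := by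
  refine ⟨?_⟩
  rw [Subgroup.index_comap_of_surjective _ (QuotientGroup.mk'_surjective _), Subgroup.index_map]
  refine mul_ne_zero ?_ range_fi.index_ne_zero
  have i5 : (M ⊔ ((QuotientGroup.mk' (MulAut.conj : FF →* MulAut FF).range).comp Φ).ker).FiniteIndex :=
    Subgroup.finiteIndex_of_le le_sup_left
  exact i5.index_ne_zero

end S2x

theorem exists_open (M : Subgroup (FreeGroup (Fin 2))) [M.Normal] [M.FiniteIndex] :
    ∃ N : OpenNormalSubgroup F2, ∀ r l : FreeGroup (Fin 2),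
      (∀ w, (eta (FreeGroup (Fin 2)) ((MulAut.conj r * Pool.Agent.Q171.AS.Φ l) w))⁻¹ *
        eta (FreeGroup (Fin 2)) w ∈ N.toSubgroup) → l ∈ M := by
  have i1 := S2x.mm_fi M
  obtain ⟨Q, iQ, iF, hQ⟩ := Pool.Agent.Q171.AS.asadaQ ((M.map
    ((QuotientGroup.mk' (MulAut.conj : Pool.Agent.Q171.AS.FF →* MulAut
      Pool.Agent.Q171.AS.FF).range).comp Pool.Agent.Q171.AS.Φ)).comap
    (QuotientGroup.mk' (MulAut.conj : Pool.Agent.Q171.AS.FF →* MulAut
      Pool.Agent.Q171.AS.FF).range))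
  have i2 : Finite (FreeGroup (Fin 2) →* Q) := S2x.finite_hom Q
  have i3 : Finite ((FreeGroup (Fin 2) →* Q) → Q) := inferInstance
  let F : FreeGroup (Fin 2) →* ((FreeGroup (Fin 2) →* Q) → Q) :=
    { toFun := fun w f => f w
      map_one' := by funext f; exact map_one f
      map_mul' := fun a b => by funext f; exact map_mul f a b }
  obtain ⟨ρ, hρ, hρo⟩ := exists_lift_finite F
  refine ⟨{ toSubgroup := ρ.ker, isOpen' := hρo, isNormal' := inferInstance }, fun r l h => ?_⟩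
  have h1 := hQ (MulAut.conj r * Pool.Agent.Q171.AS.Φ l) (fun f w => by
    have h2 : ρ ((eta (FreeGroup (Fin 2)) ((MulAut.conj r * Pool.Agent.Q171.AS.Φ l) w))⁻¹ *
        eta (FreeGroup (Fin 2)) w) = 1 := h w
    rw [map_mul, map_inv, hρ, hρ, inv_mul_eq_one] at h2
    exact congrFun h2 f)
  obtain ⟨l', hl', h3⟩ := h1
  have h4 : (Pool.Agent.Q171.AS.Φ l')⁻¹ * (MulAut.conj r * Pool.Agent.Q171.AS.Φ l) ∈
      (MulAut.conj : Pool.Agent.Q171.AS.FF →* MulAut Pool.Agent.Q171.AS.FF).range :=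
    QuotientGroup.eq.1 h3
  obtain ⟨s, hs⟩ := h4
  have h5 : l * l'⁻¹ = 1 := by
    apply sanov
    intro w
    have h6 : Pool.Agent.Q171.AS.Φ (l * l'⁻¹) = MulAut.conj r⁻¹ * (Pool.Agent.Q171.AS.Φ l' *
        MulAut.conj s * (Pool.Agent.Q171.AS.Φ l')⁻¹) := by
      rw [hs, map_mul, map_inv, map_inv]
      group
    rw [h6]
    have h7 : (MulAut.conj r⁻¹ * (Pool.Agent.Q171.AS.Φ l' * MulAut.conj s *
        (Pool.Agent.Q171.AS.Φ l')⁻¹)) w = r⁻¹ * (Pool.Agent.Q171.AS.Φ l' s * w *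
        (Pool.Agent.Q171.AS.Φ l' s)⁻¹) * r⁻¹⁻¹ := by
      change r⁻¹ * (Pool.Agent.Q171.AS.Φ l' (s * ((Pool.Agent.Q171.AS.Φ l')⁻¹ :
        MulAut Pool.Agent.Q171.AS.FF) w * s⁻¹)) * r⁻¹⁻¹ = _
      rw [map_mul, map_mul, map_inv, MulAut.apply_inv_self]
    rw [h7]
    simp only [map_mul, map_inv]
    generalize Abelianization.of w = a
    generalize Abelianization.of (Pool.Agent.Q171.AS.Φ l' s) = b
    generalize Abelianization.of r = c
    rw [mul_comm b a, mul_inv_cancel_right, inv_inv, mul_comm, mul_inv_cancel_left]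
  rw [mul_inv_eq_one] at h5
  rw [h5]
  exact hl'

end Pool.Agent.H371.LG.GO
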