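import Pool.Agent.H371.LG3.Defs

set_option autoImplicit false

namespace Pool.Agent.H371.LG.GO

open Pool.Agent.H371.GT

variable {m : ℕ}

namespace T1x

/-- the regular representation of `G × G` on two copies of `G` -/
def dg {G : Type} [Group G] : G × G →* Equiv.Perm (G ⊕ G) :=
  (Equiv.Perm.sumCongrHom G G).comp
    ((MulAction.toPermHom G G).prodMap (MulAction.toPermHom G G))

theorem dg_inl {G : Type} [Group G] (a b x : G) : dg (a, b) (Sum.inl x) = Sum.inl (a * x) := rfl

theorem dg_inr {G : Type} [Group G] (a b x : G) : dg (a, b) (Sum.inr x) = Sum.inr (b * x) := rfl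

theorem dg_swap {G : Type} [Group G] (a b : G) :
    Equiv.sumComm G G * dg (a, b) * (Equiv.sumComm G G)⁻¹ = dg (b, a) := by
  ext x
  rcases x with x | x <;> rfl

theorem dg_fst {G : Type} [Group G] {a b : G} (h : dg (a, b) = 1) : a = 1 := by
  have h1 := DFunLike.congr_fun h (Sum.inl 1)
  rw [dg_inl, mul_one] at h1
  exact Sum.inl_injective h1

theorem isOpen_ker_comp {H K : Type} [Group H] [Group K] (ρ : F2 →* H) (f : H →* K)
    (h : IsOpen (ρ.ker : Set F2)) : IsOpen ((f.comp ρ).ker : Set F2) := by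
  have h1 : (ρ.ker : Subgroup F2) ≤ (f.comp ρ).ker := by
    intro x hx
    rw [MonoidHom.mem_ker] at hx ⊢
    rw [MonoidHom.comp_apply, hx, map_one]
  exact Subgroup.isOpen_mono h1 h

theorem isOpen_ker_pre {H : Type} [Group H] (ρ : F2 →* H) (h : IsOpen (ρ.ker : Set F2))
    (θ : F2 →ₜ* F2) : IsOpen ((ρ.comp θ.toMonoidHom).ker : Set F2) := by
  have h1 : ((ρ.comp θ.toMonoidHom).ker : Set F2) = θ ⁻¹' (ρ.ker : Set F2) := by
    ext x
    rfl
  rw [h1]
  exact h.preimage θ.continuous_toFun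

end T1x

open T1x in
theorem ev_injective : Function.Injective (ev LL X) := by
  have key : ∀ u, ev LL X u = 1 → u = 1 := by
    intro u hu
    apply eq_of_forall_mk_eq
    intro N
    let G : Type := F2 ⧸ N.toSubgroup
    have hfin : Finite G := N.toSubgroup.quotient_finite_of_isOpen N.isOpen'
    let π : F2 →* G := QuotientGroup.mk' N.toSubgroup
    have hπ : IsOpen (π.ker : Set F2) := by
      have h1 : π.ker = N.toSubgroup := QuotientGroup.ker_mk' _
      rw [h1]
      exact N.isOpen'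
    obtain ⟨ρ, hρX, hρY, hρo⟩ := exists_finite_XY (π X)⁻¹ (π X * π Y)
    obtain ⟨F, hFX, hFY, hFo⟩ := exists_finite_XY (dg (π Y, π X * π Y)) (Equiv.sumComm G G)
    have h1 : F.comp (ev LL X).toMonoidHom = dg.comp (π.prod ρ) := by
      apply hom_ext_XY_finite (isOpen_ker_pre F hFo _)
        (isOpen_ker_comp _ _ (isOpen_ker_prod π ρ hπ hρo))
      · change F (ev LL X X) = dg (π X, ρ X)
        rw [ev_X, hρX]
        change F (Y * X * Y⁻¹ * X⁻¹) = _
        rw [map_mul, map_mul, map_mul, map_inv, map_inv, hFX, hFY, dg_swap, ← map_inv, ← map_mul]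
        congr 1
        ext
        · change π X * π Y * (π Y)⁻¹ = π X
          group
        · change π Y * (π X * π Y)⁻¹ = (π X)⁻¹
          group
      · change F (ev LL X Y) = dg (π Y, ρ Y)
        rw [ev_Y, hρY, hFX]
    have h2 := DFunLike.congr_fun h1 u
    change F (ev LL X u) = dg (π u, ρ u) at h2
    rw [hu, map_one] at h2
    have h3 := dg_fst h2.symm
    change π u = π 1
    rw [h3, map_one]
  intro a b hab
  have h1 := key (a * b⁻¹) (by rw [map_mul, map_inv, hab, mul_inv_cancel])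
  exact mul_inv_eq_one.1 h1

open GT.G1x in
open scoped commutatorElement in
theorem psi_ab (σ : MulAut F2) (b : F2) (ψ : MulAut F2) (h : IsPsi σ b ψ) :
    ∀ u, ψ u * u⁻¹ ∈ derived := by
  obtain ⟨hc, -, hb, hX, hY⟩ := h
  set c := ev LL X b with hcdef
  let D : Subgroup F2 := (commutator F2).topologicalClosure
  have hDn : D.Normal := Subgroup.is_normal_topologicalClosure (commutator F2)
  have hDc : IsClosed (D : Set F2) := (commutator F2).isClosed_topologicalClosure
  have hT3 : T3Space (F2 ⧸ D) := QuotientGroup.instT3Space D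
  let π : F2 →ₜ* F2 ⧸ D := ⟨QuotientGroup.mk' D, QuotientGroup.continuous_mk⟩
  have hcomm : ∀ x y : F2, π (x * y) = π (y * x) := by
    intro x y
    refine QuotientGroup.eq.2 ?_
    refine Subgroup.le_topologicalClosure _ ?_
    have h1 : (x * y)⁻¹ * (y * x) = ⁅y⁻¹, x⁻¹⁆ := by
      rw [commutatorElement_def]
      group
    rw [h1]
    exact Subgroup.commutator_mem_commutator (Subgroup.mem_top _) (Subgroup.mem_top _)
  have hLL : π LL = 1 := by
    have h1 : π LL = π (Y * X) * π ((X * Y)⁻¹) := by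
      rw [← map_mul]
      have h2 : LL = Y * X * (X * Y)⁻¹ := by
        change Y * X * Y⁻¹ * X⁻¹ = _
        group
      rw [h2]
    rw [h1, map_inv, hcomm Y X, mul_inv_cancel]
  have hπc : π c = 1 := by
    have h1 : π.comp (ev LL X) = π.comp (ev 1 X) := by
      apply hom_ext_XY
      · change π (ev LL X X) = π (ev 1 X X)
        rw [ev_X, ev_X, hLL, map_one]
      · change π (ev LL X Y) = π (ev 1 X Y)
        rw [ev_Y, ev_Y]
    have h2 := DFunLike.congr_fun h1 b
    change π (ev LL X b) = π (ev 1 X b) at h2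
    have h3 : ev 1 X b = 1 := by
      have h4 := ev_comp (ev X X) 1 Y b
      rw [hb, map_one, ev_Y] at h4
      exact h4.symm
    rw [hcdef, h2, h3, map_one]
  let Ψ : F2 →ₜ* F2 := ⟨ψ.toMonoidHom, hc⟩
  have h1 : π.comp Ψ = π := by
    apply hom_ext_XY
    · change π (ψ X) = π X
      rw [hX, map_mul, map_mul, map_inv, hπc, one_mul, inv_one, mul_one]
    · change π (ψ Y) = π Y
      rw [hY, map_mul, map_inv, hπc, inv_one, mul_one]
  intro u
  have h2 := DFunLike.congr_fun h1 u
  change π (ψ u) = π u at h2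
  have h3 : π (ψ u * u⁻¹) = 1 := by
    rw [map_mul, map_inv, h2, mul_inv_cancel]
  have h4 : ψ u * u⁻¹ ∈ D := (QuotientGroup.eq_one_iff _).1 h3
  exact h4

open GT.G1x in
theorem psi_comm (σ : MulAut F2) (b : F2) (ψ : MulAut F2) (h : IsPsi σ b ψ) :
    ∃ r, ∀ u, ψ (ev X (X * X * Y) u) = r * ev X (X * X * Y) (ψ u) * r⁻¹ := by
  obtain ⟨hc, -, hb, hX, hY⟩ := h
  set c := ev LL X b with hcdef
  let Ψ : F2 →ₜ* F2 := ⟨ψ.toMonoidHom, hc⟩
  let T : F2 →ₜ* F2 := ev X (Y * X * X)
  have hTX : T X = X := ev_X _ _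
  have hTY : T Y = Y * X * X := ev_Y _ _
  have hTL : T LL = LL := by
    change T (Y * X * Y⁻¹ * X⁻¹) = Y * X * Y⁻¹ * X⁻¹
    rw [map_mul, map_mul, map_mul, map_inv, map_inv, hTX, hTY]
    group
  have hTc : T c = c := by
    rw [hcdef, ev_comp, hTL, hTX]
  have h1 : Ψ.comp T = T.comp Ψ := by
    apply hom_ext_XY
    · change ψ (T X) = T (ψ X)
      rw [hTX, hX, map_mul, map_mul, map_inv, hTc, hTX]
    · change ψ (T Y) = T (ψ Y)
      rw [hTY, map_mul, map_mul, hY, hX, map_mul, map_inv, hTc, hTY]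
      group
  have h2 : ∀ u, ψ (T u) = T (ψ u) := fun u => DFunLike.congr_fun h1 u
  have h3 : ∀ u, ev X (X * X * Y) u = (X * X) * T u * (X * X)⁻¹ := by
    intro u
    rw [← ev_conj]
    congr 2
    · group
    · group
  refine ⟨ψ (X * X) * (X * X)⁻¹, fun u => ?_⟩
  rw [h3, h3, map_mul, map_mul, map_inv, h2]
  group

end Pool.Agent.H371.LG.GO
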